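import Pool.Agent.W792.WA.Stm
import Pool.Agent.W382.WA.Cx

/-!
Generic kinetic energies: the scalar fixed point equation with a semicircle level.
-/

namespace Pool.Agent.V8H97.GK

open MeasureTheory Pool.Agent.W792.LL Pool.Agent.W792.WA
open Complex (I)

noncomputable section

/-- The point of the lower half plane with Cayley transform `s`. -/
def unc (s : ℂ) : ℂ := I * (s + 1) / (s - 1)

theorem ne_one {s : ℂ} (hs : ‖s‖ < 1) : s - 1 ≠ 0 := by
  intro h
  have h1 : s = 1 := by linear_combination h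
  rw [h1] at hs
  simp at hs

theorem unc_im {s : ℂ} (hs : ‖s‖ < 1) : (unc s).im = (‖s‖ ^ 2 - 1) / ‖1 - s‖ ^ 2 := by
  have h0 := ne_one hs
  have h1 : unc s = (I * (s + 1)) * (starRingEnd ℂ) (s - 1) / ((‖1 - s‖ ^ 2 : ℝ) : ℂ) := by
    unfold unc
    have h2 : ((‖1 - s‖ ^ 2 : ℝ) : ℂ) = (s - 1) * (starRingEnd ℂ) (s - 1) := by
      rw [Complex.mul_conj', ← norm_neg (1 - s), neg_sub]
      push_cast
      rfl
    have h3 : (starRingEnd ℂ) (s - 1) ≠ 0 := by
      intro h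
      exact h0 ((map_eq_zero _).1 h)
    rw [h2]
    field_simp
  rw [h1, Complex.div_ofReal_im]
  congr 1
  rw [Complex.sq_norm, Complex.normSq_apply]
  simp only [map_sub, map_one, Complex.mul_im, Complex.mul_re, Complex.add_re, Complex.add_im,
    Complex.sub_re, Complex.sub_im, Complex.I_re, Complex.I_im, Complex.one_re, Complex.one_im,
    Complex.conj_re, Complex.conj_im]
  ring

theorem unc_neg {s : ℂ} (hs : ‖s‖ < 1) : (unc s).im < 0 := by
  rw [unc_im hs]
  have h0 : 0 < ‖1 - s‖ := by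
    rw [norm_pos_iff]
    intro h
    exact ne_one hs (by linear_combination -h)
  apply div_neg_of_neg_of_pos
  · nlinarith [norm_nonneg s]
  · positivity

/-- The scalar averaged resolvent. -/
def gsc (s U : ℂ) : ℂ := I / 2 * ((1 - s) * (1 - U) / (1 - U * s))

theorem one_sub_mul_ne {s w : ℂ} (hs : ‖s‖ < 1) (hw : ‖w‖ ≤ 1) : 1 - w * s ≠ 0 := by
  intro h
  have h1 : w * s = 1 := by linear_combination -h
  have h2 : ‖w * s‖ = 1 := by rw [h1, norm_one]
  rw [norm_mul] at h2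
  nlinarith [norm_nonneg s, norm_nonneg w]

theorem add_ne {x y : ℂ} (hx : x.im ≤ 0) (hy : y.im < 0) : x + y ≠ 0 := by
  intro h
  have h1 := congrArg Complex.im h
  simp at h1
  linarith

theorem sub_I_ne {x : ℂ} (hx : x.im ≤ 0) : x - I ≠ 0 := by
  intro h
  have h1 := congrArg Complex.im h
  simp at h1
  linarith

theorem cay_id {X s : ℂ} (hX : X.im ≤ 0) (hs : ‖s‖ < 1) (hw : 1 - (X + I) / (X - I) * s ≠ 0) :
    (X + I) / (X - I) / (1 - (X + I) / (X - I) * s)
      = 1 / (1 - s) + 2 * I / (1 - s) ^ 2 * (1 / (X + unc s)) := by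
  have h1 := sub_I_ne hX
  have h2 := ne_one hs
  have h2' : (1 - s) ≠ 0 := by
    intro h
    exact h2 (by linear_combination -h)
  have h3 := add_ne hX (unc_neg hs)
  have h4 : (X - I) - (X + I) * s ≠ 0 := by
    intro h
    apply hw
    field_simp
    linear_combination h
  have h5 : X + unc s = -((X - I) - (X + I) * s) / (s - 1) := by
    unfold unc
    field_simp
    ring
  rw [h5]
  have e1 : (X + I) / (X - I) / (1 - (X + I) / (X - I) * s) = (X + I) / ((X - I) - (X + I) * s) := by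
    field_simp
  have e2 : 1 / (-((X - I) - (X + I) * s) / (s - 1)) = (1 - s) / ((X - I) - (X + I) * s) := by
    rw [one_div_div, div_neg, ← neg_div, neg_sub]
  rw [e1, e2]
  field_simp
  ring_nf
  try rw [Complex.I_sq]
  try ring

/-- The average over the level. -/
def lvi (ψ : C(UnitAddCircle, ℝ)) (w : ℂ) : ℂ :=
  ∫ φ in Set.Ioc (0 : ℝ) 1, 1 / (w + (ψ (φ : UnitAddCircle) : ℂ))

theorem meas_lv (ψ : C(UnitAddCircle, ℝ)) (w : ℂ) :
    Measurable fun φ : ℝ => 1 / (w + (ψ (φ : UnitAddCircle) : ℂ)) := by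
  have h : Continuous fun φ : ℝ => (ψ (φ : UnitAddCircle) : ℂ) :=
    Complex.continuous_ofReal.comp (ψ.continuous.comp (AddCircle.continuous_mk' (1 : ℝ)))
  exact measurable_const.div (measurable_const.add h.measurable)

theorem int_lv (ψ : C(UnitAddCircle, ℝ)) {w : ℂ} (hw : w.im < 0) :
    Integrable (fun φ : ℝ => 1 / (w + (ψ (φ : UnitAddCircle) : ℂ)))
      (volume.restrict (Set.Ioc (0 : ℝ) 1)) := by
  refine Integrable.of_bound (meas_lv ψ w).aestronglyMeasurable (1 / (-w.im))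
    (Filter.Eventually.of_forall fun φ => ?_)
  rw [norm_div, norm_one]
  apply one_div_le_one_div_of_le (by linarith)
  have h1 := Complex.abs_im_le_norm (w + (ψ (φ : UnitAddCircle) : ℂ))
  have h2 : (w + (ψ (φ : UnitAddCircle) : ℂ)).im = w.im := by simp
  rw [h2] at h1
  exact (neg_le_abs _).trans h1

theorem lvi_im (ψ : C(UnitAddCircle, ℝ)) {w : ℂ} (hw : w.im < 0) : 0 ≤ (lvi ψ w).im := by
  unfold lvi
  have h1 : (∫ φ in Set.Ioc (0 : ℝ) 1, 1 / (w + (ψ (φ : UnitAddCircle) : ℂ))).im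
      = ∫ φ in Set.Ioc (0 : ℝ) 1, (1 / (w + (ψ (φ : UnitAddCircle) : ℂ))).im :=
    (Complex.imCLM.integral_comp_comm (int_lv ψ hw)).symm
  rw [h1]
  refine integral_nonneg fun φ => ?_
  change 0 ≤ (1 / (w + (ψ (φ : UnitAddCircle) : ℂ))).im
  rw [one_div, Complex.inv_im]
  have h2 : (w + (ψ (φ : UnitAddCircle) : ℂ)).im = w.im := by simp
  rw [h2]
  exact div_nonneg (by linarith) (Complex.normSq_nonneg _)

theorem gsc_eq (s U m : ℂ) (hs : 1 - s ≠ 0) (hU : 1 - U * s ≠ 0)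
    (h : U / (1 - U * s) = 1 / (1 - s) + 2 * I / (1 - s) ^ 2 * m) : m = gsc s U := by
  unfold gsc
  have h1 : U / (1 - U * s) * ((1 - s) ^ 2 * (1 - U * s))
      = (1 / (1 - s) + 2 * I / (1 - s) ^ 2 * m) * ((1 - s) ^ 2 * (1 - U * s)) := by rw [h]
  have e1 : U / (1 - U * s) * ((1 - s) ^ 2 * (1 - U * s)) = U * (1 - s) ^ 2 := by
    field_simp
  have e2 : (1 / (1 - s) + 2 * I / (1 - s) ^ 2 * m) * ((1 - s) ^ 2 * (1 - U * s))
      = (1 - s) * (1 - U * s) + 2 * I * m * (1 - U * s) := by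
    field_simp
  rw [e1, e2] at h1
  have h3 : I / 2 * ((1 - s) * (1 - U) / (1 - U * s)) = (I / 2 * ((1 - s) * (1 - U))) / (1 - U * s) := by
    ring
  rw [h3, eq_div_iff hU]
  have hI : I ^ 2 = -1 := Complex.I_sq
  linear_combination (I / 2) * h1 + (m * (1 - U * s)) * hI

/-- The fixed point equation with a semicircle level. -/
theorem semi_id {ψ : C(UnitAddCircle, ℝ)} (hψ : IsSemi ψ) {l : ℝ} (hl : 0 < l) {x₀ s U : ℂ}
    (hx : x₀.im < 0) (hs : ‖s‖ < 1) (hU : ‖U‖ < 1)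
    (h : U / (1 - U * s) = ∫ φ in Set.Ioc (0 : ℝ) 1,
      cayx x₀ (l * ψ (φ : UnitAddCircle)) / (1 - cayx x₀ (l * ψ (φ : UnitAddCircle)) * s)) :
    0 ≤ (gsc s U).im ∧
      1 - ‖U‖ ^ 2 = ‖1 - U‖ ^ 2 * (-x₀.im + l ^ 2 / 4 * (gsc s U).im) := by
  have hs1 : (1 - s) ≠ 0 := by
    intro h
    exact ne_one hs (by linear_combination -h)
  have hU1 : (1 - U) ≠ 0 := by
    intro h
    exact ne_one hU (by linear_combination -h)
  have hUs := one_sub_mul_ne hs hU.le
  have hlc : (l : ℂ) ≠ 0 := by exact_mod_cast hl.ne'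
  set y := unc s with hy
  have hyi : y.im < 0 := unc_neg hs
  set w : ℂ := (x₀ + y) / l with hw
  have hwi : w.im < 0 := by
    rw [hw, Complex.div_ofReal_im, Complex.add_im]
    exact div_neg_of_neg_of_pos (by linarith) hl
  set N := lvi ψ w with hN
  -- the integral
  have h1 : ∀ φ : ℝ, cayx x₀ (l * ψ (φ : UnitAddCircle)) /
      (1 - cayx x₀ (l * ψ (φ : UnitAddCircle)) * s)
      = 1 / (1 - s) + 2 * I / (1 - s) ^ 2 * ((1 / l) * (1 / (w + (ψ (φ : UnitAddCircle) : ℂ)))) := by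
    intro φ
    set a : ℝ := l * ψ (φ : UnitAddCircle) with ha
    have hXi : (x₀ + a).im ≤ 0 := by
      rw [Complex.add_im, Complex.ofReal_im, add_zero]
      exact hx.le
    have hc : cayx x₀ a = (x₀ + a + I) / (x₀ + a - I) := rfl
    have hcn : ‖cayx x₀ a‖ ≤ 1 := (Pool.Agent.W382.WACx.main.1 x₀ a hx.le).1
    have h2 := one_sub_mul_ne hs hcn
    rw [hc] at h2 ⊢
    rw [cay_id hXi hs h2]
    congr 2
    have h3 : x₀ + (a : ℂ) + unc s = l * (w + (ψ (φ : UnitAddCircle) : ℂ)) := by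
      rw [hw, ha]
      push_cast
      field_simp
      ring
    rw [h3]
    field_simp
  have h2 : (∫ φ in Set.Ioc (0 : ℝ) 1,
      cayx x₀ (l * ψ (φ : UnitAddCircle)) / (1 - cayx x₀ (l * ψ (φ : UnitAddCircle)) * s))
      = 1 / (1 - s) + 2 * I / (1 - s) ^ 2 * ((1 / l) * N) := by
    simp only [h1]
    rw [integral_add (integrable_const _) (((int_lv ψ hwi).const_mul _).const_mul _),
      integral_const_mul, integral_const_mul]
    simp [hN, lvi]
  rw [h2] at h
  have h3 := gsc_eq s U _ hs1 hUs h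
  obtain ⟨hN1, hN2⟩ := hψ.eqn w hwi
  change ‖N‖ ≤ 2 at hN1
  change N ^ 2 / 4 - w * N + 1 = 0 at hN2
  have hN0 : 0 ≤ N.im := lvi_im ψ hwi
  set m := gsc s U with hm
  have hNm : N = l * m := by
    rw [← h3]
    field_simp
  have hmi : m.im = N.im / l := by
    rw [hNm, Complex.im_ofReal_mul]
    field_simp
  refine ⟨by rw [hmi]; exact div_nonneg hN0 hl.le, ?_⟩
  -- the quadratic equation
  have hq : (l : ℂ) ^ 2 / 4 * m ^ 2 - (x₀ + y) * m + 1 = 0 := by
    rw [hNm, hw] at hN2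
    have e : (l * m) ^ 2 / 4 - (x₀ + y) / l * (l * m) + 1
        = (l : ℂ) ^ 2 / 4 * m ^ 2 - (x₀ + y) * m + 1 := by
      field_simp
    rw [e] at hN2
    exact hN2
  have hs2 := ne_one hs
  have hU2 := ne_one hU
  set x := unc U with hxd
  have hxy : (x + y) * m = 1 := by
    rw [hxd, hy, hm]
    unfold unc gsc
    have hI : I ^ 2 = -1 := Complex.I_sq
    field_simp
    linear_combination (-(2 - 2 * U * s) * (s * U - s - U + 1)) * hI
  have hm0 : m ≠ 0 := by
    intro h0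
    rw [h0, mul_zero] at hxy
    exact zero_ne_one hxy
  have hxx : x = x₀ - (l : ℂ) ^ 2 / 4 * m := by
    have e1 : (x - (x₀ - (l : ℂ) ^ 2 / 4 * m)) * m = 0 := by
      linear_combination hxy - (-1 : ℂ) * hq
    rcases mul_eq_zero.1 e1 with h4 | h4
    · linear_combination h4
    · exact absurd h4 hm0
  have hxim : x.im = x₀.im - l ^ 2 / 4 * m.im := by
    rw [hxx, Complex.sub_im]
    congr 1
    have : (l : ℂ) ^ 2 / 4 = ((l ^ 2 / 4 : ℝ) : ℂ) := by push_cast; rfl
    rw [this, Complex.im_ofReal_mul]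
  have h5 := unc_im hU
  rw [← hxd, hxim] at h5
  have h6 : ‖1 - U‖ ^ 2 ≠ 0 := by
    have := norm_pos_iff.2 hU1
    positivity
  rw [eq_div_iff h6] at h5
  linarith

end

end Pool.Agent.V8H97.GK
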