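import Pool.Agent.V8H97.GK.Win

/-!
Generic kinetic energies: small perturbations make the bad event unlikely, for all laws.
-/

namespace Pool.Agent.V8H97.GK

open MeasureTheory Pool.Agent.W792.LL Pool.Agent.W792.WA Pool.Agent.W19.WAPsi

noncomputable section

variable {d : ℕ}

theorem card_grid {N δ : ℝ} (hN : 0 ≤ N) (hδ : 0 < δ) :
    ((Finset.Icc (-⌈N / δ⌉) ⌈N / δ⌉).card : ℝ) ≤ 2 * (N / δ) + 3 := by
  rw [Int.card_Icc]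
  have h1 : 0 ≤ ⌈N / δ⌉ := Int.ceil_nonneg (by positivity)
  have h2 : ((⌈N / δ⌉ + 1 - -⌈N / δ⌉).toNat : ℤ) = 2 * ⌈N / δ⌉ + 1 := by
    rw [Int.toNat_of_nonneg (by omega)]
    ring
  have h3 : (((⌈N / δ⌉ + 1 - -⌈N / δ⌉).toNat : ℤ) : ℝ) = 2 * (⌈N / δ⌉ : ℝ) + 1 := by
    rw [h2]
    push_cast
    ring
  have h4 : (((⌈N / δ⌉ + 1 - -⌈N / δ⌉).toNat : ℕ) : ℝ) = 2 * (⌈N / δ⌉ : ℝ) + 1 := by
    rw [← h3]
    push_cast
    rfl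
  rw [h4]
  have h5 := Int.ceil_lt_add_one (N / δ)
  linarith

theorem bad_le (ν : Measure ℝ) [IsProbabilityMeasure ν] (K : C(UnitAddTorus (Fin d), ℝ))
    {η c N B : ℝ} (hη : 0 < η) (hc : 0 < c) (hN : 0 ≤ N) (hB : 0 ≤ B)
    (h : ∀ j ∈ Finset.Icc (-⌈N / (c * η / 2)⌉) ⌈N / (c * η / 2)⌉,
      ∫ v, ‖gf K 1 v ⟨c * η / 2 * (j : ℝ), η⟩‖ ^ 2 ∂(Pn ν (Fin d → ℤ)) ≤ B) :
    Pn ν (Fin d → ℤ) (Bad K η c N)
      ≤ ENNReal.ofReal ((2 * (N / (c * η / 2)) + 3) * (B / (c / (2 * η)) ^ 2)) := by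
  calc Pn ν (Fin d → ℤ) (Bad K η c N)
      ≤ Pn ν (Fin d → ℤ) (⋃ j ∈ Finset.Icc (-⌈N / (c * η / 2)⌉) ⌈N / (c * η / 2)⌉,
      {v | c / (2 * η) ≤ ‖gf K 1 v ⟨c * η / 2 * (j : ℝ), η⟩‖}) := measure_mono (bad_sub K hη hc)
    _ ≤ ∑ j ∈ Finset.Icc (-⌈N / (c * η / 2)⌉) ⌈N / (c * η / 2)⌉, Pn ν (Fin d → ℤ)
      {v | c / (2 * η) ≤ ‖gf K 1 v ⟨c * η / 2 * (j : ℝ), η⟩‖} := measure_biUnion_finset_le _ _
    _ ≤ ∑ _j ∈ Finset.Icc (-⌈N / (c * η / 2)⌉) ⌈N / (c * η / 2)⌉,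
        ENNReal.ofReal (B / (c / (2 * η)) ^ 2) :=
        Finset.sum_le_sum fun j hj => markov ν K hη hB (by positivity) (h j hj)
    _ = ENNReal.ofReal (((Finset.Icc (-⌈N / (c * η / 2)⌉) ⌈N / (c * η / 2)⌉).card : ℝ)
          * (B / (c / (2 * η)) ^ 2)) := by
        rw [Finset.sum_const, nsmul_eq_mul, ENNReal.ofReal_mul (by positivity),
          ENNReal.ofReal_natCast]
    _ ≤ _ := by
        refine ENNReal.ofReal_le_ofReal (mul_le_mul_of_nonneg_right ?_ (by positivity))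
        exact card_grid hN (by positivity)

/-- Density step. -/
theorem dens {ψ : C(UnitAddCircle, ℝ)} (hψ : IsSemi ψ) (hd : 0 < d) {κ : ℝ} (hκ : 0 < κ)
    {l N c p r : ℝ} (hl : 0 < l) (hN : 0 ≤ N) (hc : 0 < c) (hp : 0 < p) (hr : 0 < r)
    (K : C(UnitAddTorus (Fin d), ℝ)) :
    ∃ η : ℝ, 0 < η ∧ η ≤ r ∧ η ≤ 1 ∧ ∃ M₀ : ℕ, ∀ M : ℕ, M₀ ≤ M →
      ∀ (ν : Measure ℝ) [IsProbabilityMeasure ν], κ ≤ vr ν →
      Pn ν (Fin d → ℤ) (Bad (addL ψ K l M) η c N) ≤ ENNReal.ofReal p := by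
  set C : ℝ := (4 * N / c + 3) * (4 * (9 + 8 / l ^ 4) / c ^ 2) with hC
  have hC0 : 0 < C := by positivity
  set θ : ℝ := min (min 1 r) (p / C) with hθ
  have hθ0 : 0 < θ := lt_min (lt_min one_pos hr) (by positivity)
  have hθ1 : θ ≤ 1 := (min_le_left _ _).trans (min_le_left _ _)
  have hθr : θ ≤ r := (min_le_left _ _).trans (min_le_right _ _)
  have hθp : θ * C ≤ p := by
    have h1 : θ ≤ p / C := min_le_right _ _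
    rwa [le_div_iff₀ hC0] at h1
  have hθ2 : θ ^ 2 ≤ 1 := pow_le_one₀ hθ0.le hθ1
  have hθ3 : θ ^ 3 ≤ θ := by
    calc θ ^ 3 = θ * θ ^ 2 := by ring
      _ ≤ θ * 1 := mul_le_mul_of_nonneg_left hθ2 hθ0.le
      _ = θ := mul_one θ
  set η : ℝ := θ ^ 3 with hη
  have hη0 : 0 < η := by positivity
  refine ⟨η, hη0, hθ3.trans hθr, hθ3.trans hθ1, ?_⟩
  set B : ℝ := 2 * (4 * θ / η + 4 / (θ ^ 2 * l ^ 4)) + 1 with hB
  have hB0 : 0 < B := by positivity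
  have h1 : ∀ j : ℤ, ∃ M₀ : ℕ, ∀ M : ℕ, M₀ ≤ M →
      ∀ (ν : Measure ℝ) [IsProbabilityMeasure ν], κ ≤ vr ν →
      ∫ v, ‖gf (addL ψ K l M) 1 v ⟨c * η / 2 * (j : ℝ), η⟩‖ ^ 2 ∂(Pn ν (Fin d → ℤ)) ≤ B :=
    fun j => all_laws hψ hd hκ hl hθ0 K (z := ⟨c * η / 2 * (j : ℝ), η⟩) hη0 one_pos
  choose m hm using h1
  refine ⟨(Finset.Icc (-⌈N / (c * η / 2)⌉) ⌈N / (c * η / 2)⌉).sup m, fun M hM ν _ hν => ?_⟩
  refine (bad_le ν _ hη0 hc hN hB0.le fun j hj =>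
    hm j M ((Finset.le_sup hj).trans hM) ν hν).trans (ENNReal.ofReal_le_ofReal ?_)
  refine le_trans ?_ hθp
  have e1 : B ≤ (9 + 8 / l ^ 4) / θ ^ 2 := by
    have e2 : 2 * (4 * θ / η + 4 / (θ ^ 2 * l ^ 4)) = (8 + 8 / l ^ 4) / θ ^ 2 := by
      rw [hη]
      field_simp
      norm_num
    have e3 : 1 ≤ 1 / θ ^ 2 := by
      rw [le_div_iff₀ (by positivity)]
      linarith
    have e4 : (9 + 8 / l ^ 4) / θ ^ 2 = (8 + 8 / l ^ 4) / θ ^ 2 + 1 / θ ^ 2 := by ring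
    rw [hB, e2, e4]
    linarith
  have e2 : B / (c / (2 * η)) ^ 2 ≤ 4 * (9 + 8 / l ^ 4) / c ^ 2 * θ ^ 4 := by
    rw [div_le_iff₀ (by positivity)]
    refine e1.trans (le_of_eq ?_)
    rw [hη]
    field_simp
    norm_num
  have e3 : 2 * (N / (c * η / 2)) + 3 ≤ (4 * N / c + 3) / θ ^ 3 := by
    have e4 : 2 * (N / (c * η / 2)) = 4 * N / c / θ ^ 3 := by
      rw [hη]
      field_simp
      ring
    have e5 : 3 ≤ 3 / θ ^ 3 := by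
      rw [le_div_iff₀ (by positivity)]
      have : θ ^ 3 ≤ 1 := hθ3.trans hθ1
      linarith
    rw [e4, add_div]
    linarith
  calc (2 * (N / (c * η / 2)) + 3) * (B / (c / (2 * η)) ^ 2)
      ≤ (4 * N / c + 3) / θ ^ 3 * (4 * (9 + 8 / l ^ 4) / c ^ 2 * θ ^ 4) :=
        mul_le_mul e3 e2 (by positivity) (by positivity)
    _ = θ * C := by
        rw [hC]
        field_simp

end

end Pool.Agent.V8H97.GK
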