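import Pool.Agent.V8H97.GK.Win

/-!
Generic kinetic energies: an eigenfunction makes the Green function large.
-/

namespace Pool.Agent.V8H97.GK

open MeasureTheory Pool.Agent.W792.LL Pool.Agent.W792.WA Pool.Agent.W19.WAPsi
open Complex (I)

noncomputable section

variable {d : ℕ}

theorem cR_coe (K : C(UnitAddTorus (Fin d), ℝ)) : (⇑(cR K)) = fun k => ((K k : ℝ) : ℂ) := by
  funext k
  exact cR_apply K k

theorem opr_hop (K : C(UnitAddTorus (Fin d), ℝ)) (u : l2 (Fin d → ℤ)) (x : Fin d → ℤ) :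
    opr (cR K) u x = ∑' y, hopK K (x - y) * u y := by
  rw [((Al.opr d (cR K) (cR K)).1 u x).2]
  unfold hopK
  rw [cR_coe]

/-- Symmetry of a real potential. -/
theorem pot_symm (v : (Fin d → ℤ) → ℝ) (a b A B : l2 (Fin d → ℤ))
    (hA : ∀ x, A x = (v x : ℂ) * a x) (hB : ∀ x, B x = (v x : ℂ) * b x) :
    (inner ℂ A b : ℂ) = inner ℂ a B := by
  rw [lp.inner_eq_tsum, lp.inner_eq_tsum]
  refine tsum_congr fun x => ?_
  rw [hA, hB]
  simp only [RCLike.inner_apply, map_mul, Complex.conj_ofReal]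
  ring

theorem dl_inner (w : l2 (Fin d → ℤ)) : (inner ℂ (dl 0) w : ℂ) = w 0 := by
  rw [coord_inner (0 : Fin d → ℤ) w]
  rfl

theorem dl_inner' (w : l2 (Fin d → ℤ)) : (inner ℂ w (dl 0) : ℂ) = (starRingEnd ℂ) (w 0) := by
  rw [← inner_conj_symm, dl_inner]

/-- An eigenfunction makes the Green function large. -/
theorem eig_le (K : C(UnitAddTorus (Fin d), ℝ)) (v : (Fin d → ℤ) → ℝ) (E : ℝ) {η : ℝ}
    (hη : 0 < η) (u : (Fin d → ℤ) → ℂ) (hu : Summable fun x => ‖u x‖ ^ 2)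
    (h : ∀ x, ∑' y, hopK K (x - y) * u y + (v x : ℂ) * u x = (E : ℂ) * u x) :
    ‖u 0‖ ^ 2 ≤ η * ‖gf K 1 v ⟨E, η⟩‖ * ∑' x, ‖u x‖ ^ 2 := by
  set z : ℂ := ⟨E, η⟩ with hz
  obtain ⟨⟨w, hw⟩, hval⟩ := Pool.Agent.W156.WAFin.hG d K 1 one_pos v z hη
  have hw0 := hval w hw
  obtain ⟨hws, hw⟩ := hw
  set T := opr (cR K) with hT
  set U : l2 (Fin d → ℤ) := ⟨u, Pool.Agent.W320.LL.memℓp_two hu⟩ with hU
  set W : l2 (Fin d → ℤ) := ⟨w, Pool.Agent.W320.LL.memℓp_two hws⟩ with hW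
  have hUa : ∀ x, U x = u x := fun x => rfl
  have hWa : ∀ x, W x = w x := fun x => rfl
  set A : l2 (Fin d → ℤ) := (E : ℂ) • U - T U with hA
  set B : l2 (Fin d → ℤ) := dl 0 + z • W - T W with hB
  have hAx : ∀ x, A x = (v x : ℂ) * U x := by
    intro x
    have h1 : A x = (E : ℂ) * U x - T U x := rfl
    rw [h1, hT, opr_hop]
    have h2 := h x
    simp only [hUa]
    linear_combination -h2
  have hBx : ∀ x, B x = (v x : ℂ) * W x := by
    intro x
    have h1 : B x = (dl (0 : Fin d → ℤ)) x + z * W x - T W x := rfl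
    rw [h1, hT, opr_hop, dl_apply]
    have h2 := hw x
    simp only [hWa]
    rw [one_mul] at h2
    rw [← h2]
    ring
  have s1 := pot_symm v U W A B hAx hBx
  have s2 := pot_symm v W W B B hBx hBx
  have hTs : ∀ a b : l2 (Fin d → ℤ), (inner ℂ (T a) b : ℂ) = inner ℂ a (T b) :=
    fun a b => inner_opr_left K a b
  -- the first identity
  have k1 : (starRingEnd ℂ) (u 0) = ((E : ℂ) - z) * inner ℂ U W := by
    rw [hA, hB, inner_sub_left, inner_sub_right, inner_add_right, inner_smul_left,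
      inner_smul_right, hTs, dl_inner', Complex.conj_ofReal, hUa] at s1
    linear_combination -s1
  have k2 : (w 0) - (starRingEnd ℂ) (w 0) = (z - (starRingEnd ℂ) z) * ((‖W‖ ^ 2 : ℝ) : ℂ) := by
    rw [hB, inner_sub_left, inner_sub_right, inner_add_right, inner_add_left, inner_smul_left,
      inner_smul_right, hTs, dl_inner', dl_inner, inn_self, hWa] at s2
    linear_combination s2
  have k3 : η * ‖W‖ ^ 2 = (w 0).im := by
    have h1 := congrArg Complex.im k2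
    simp only [Complex.sub_im, Complex.conj_im, Complex.mul_im, Complex.ofReal_re,
      Complex.ofReal_im, Complex.sub_re, Complex.conj_re, hz] at h1
    linarith
  have k4 : ‖u 0‖ ≤ η * (‖U‖ * ‖W‖) := by
    have h1 : ‖(starRingEnd ℂ) (u 0)‖ = ‖u 0‖ := Complex.norm_conj _
    have h2 : (E : ℂ) - z = -(η * I) := by
      rw [hz]
      apply Complex.ext <;> simp
    rw [← h1, k1, h2, norm_mul, norm_neg, norm_mul, Complex.norm_I, mul_one, Complex.norm_real,
      Real.norm_of_nonneg hη.le]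
    exact mul_le_mul_of_nonneg_left (norm_inner_le_norm _ _) hη.le
  have k5 : ‖U‖ ^ 2 = ∑' x, ‖u x‖ ^ 2 := by
    have h1 := (Pool.Agent.W304.WA.Zfw.hasSum_sq U).tsum_eq
    rw [← h1]
  have k6 : (w 0).im ≤ ‖gf K 1 v z‖ := by
    rw [← hw0]
    exact (le_abs_self _).trans (Complex.abs_im_le_norm _)
  have k7 := pow_le_pow_left₀ (norm_nonneg _) k4 2
  rw [← k5]
  calc ‖u 0‖ ^ 2 ≤ (η * (‖U‖ * ‖W‖)) ^ 2 := k7
    _ = η * (η * ‖W‖ ^ 2) * ‖U‖ ^ 2 := by ring
    _ = η * (w 0).im * ‖U‖ ^ 2 := by rw [k3]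
    _ ≤ η * ‖gf K 1 v z‖ * ‖U‖ ^ 2 := by
        refine mul_le_mul_of_nonneg_right ?_ (by positivity)
        exact mul_le_mul_of_nonneg_left k6 hη.le

end

end Pool.Agent.V8H97.GK
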