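import Pool.Agent.V8H97.GK.Nest

/-!
Generic kinetic energies: assembly.
-/

namespace Pool.Agent.V8H97.GK

open MeasureTheory Filter Pool.Agent.W792.LL Pool.Agent.W792.WA
open scoped Topology

noncomputable section

/-- The symbol of `-Δ + b(-Δ)`. -/
def kb (d : ℕ) (b : C(ℝ, ℝ)) : C(UnitAddTorus (Fin d), ℝ) := lap d + gK b d

theorem kb_cont (d : ℕ) : Continuous (kb d) := by
  unfold kb gK
  exact continuous_const.add (ContinuousMap.continuous_precomp (lap d))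

theorem kb_add_osc (d : ℕ) (ψ : C(UnitAddCircle, ℝ)) (b : C(ℝ, ℝ)) (l : ℝ) (M : ℕ) :
    kb d (b + osc ψ l M) = addL ψ (kb d b) l M := by
  ext k
  change lap d k + (b (lap d k) + l * ψ _) = (lap d k + b (lap d k)) + l * ψ _
  ring

/-- The good set. -/
def Gs : Set C(ℝ, ℝ) :=
  ⋂ p : ℕ × ℕ × ℕ × ℕ, (kb (p.1 + 1)) ⁻¹' OO (p.1 + 1) (1 / ((p.2.1 : ℝ) + 1)) p.2.2.1 p.2.2.2

theorem Gs_gdelta : IsGδ Gs :=
  IsGδ.iInter fun p => ((isOpen_OO _ _ (Nat.cast_nonneg _) _).preimage (kb_cont _)).isGδ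

theorem Gs_mem {b : C(ℝ, ℝ)} (hb : b ∈ Gs) {d : ℕ} (hd : 0 < d) (j N m : ℕ) :
    kb d b ∈ OO d (1 / ((j : ℝ) + 1)) N m := by
  have h := Set.mem_iInter.1 hb (d - 1, j, N, m)
  have e : d - 1 + 1 = d := by omega
  simp only [Set.mem_preimage] at h
  rw [e] at h
  exact h

/-- The construction near any function. -/
theorem near {ψ : C(UnitAddCircle, ℝ)} (hψ : IsSemi ψ) (b₀ : C(ℝ, ℝ)) {S : ℝ} (hS : 0 < S) :
    ∃ g : C(ℝ, ℝ), IsSum ψ S g ∧ b₀ + g ∈ Gs := by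
  obtain ⟨f, hf⟩ := exists_surjective_nat (ℕ × ℕ × ℕ × ℕ)
  set cond : ℕ → Set C(ℝ, ℝ) := fun n =>
    (kb ((f n).1 + 1)) ⁻¹' OO ((f n).1 + 1) (1 / (((f n).2.1 : ℝ) + 1)) (f n).2.2.1 (f n).2.2.2
    with hcond
  have hopen : ∀ n, ∀ F ∈ cond n, ∃ r : ℝ, 0 < r ∧ ∀ F' : C(ℝ, ℝ), (∀ t, |F' t - F t| ≤ r) →
      F' ∈ cond n := by
    intro n F hF
    have h1 := isOpen_OO (d := (f n).1 + 1) (1 / (((f n).2.1 : ℝ) + 1)) (f n).2.2.1
      (Nat.cast_nonneg _) (f n).2.2.2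
    obtain ⟨r, hr, hr2⟩ := Metric.isOpen_iff.1 h1 _ hF
    refine ⟨r / 2, by positivity, fun F' hF' => hr2 ?_⟩
    rw [Metric.mem_ball, dist_eq_norm]
    refine lt_of_le_of_lt ?_ (half_lt_self hr)
    refine (ContinuousMap.norm_le _ (by positivity)).2 fun k => ?_
    have e : (kb ((f n).1 + 1) F' - kb ((f n).1 + 1) F) k
        = F' (lap _ k) - F (lap _ k) := by
      change (lap _ k + F' (lap _ k)) - (lap _ k + F (lap _ k)) = _
      ring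
    rw [e, Real.norm_eq_abs]
    exact hF' _
  have hdense : ∀ n (F : C(ℝ, ℝ)) (l : ℝ), 0 < l → ∃ M : ℕ, F + osc ψ l M ∈ cond n := by
    intro n F l hl
    obtain ⟨M, hM⟩ := dense_OO hψ (Nat.succ_pos (f n).1) (κ := 1 / (((f n).2.1 : ℝ) + 1))
      (by positivity) (N := (f n).2.2.1) (Nat.cast_nonneg _) (f n).2.2.2 hl (kb ((f n).1 + 1) F)
    refine ⟨M, ?_⟩
    have := hM M le_rfl
    rw [← kb_add_osc] at this
    exact this
  obtain ⟨g, hg1, hg2⟩ := nest ψ cond hopen hdense hψ.bound b₀ hS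
  refine ⟨g, hg1, Set.mem_iInter.2 fun p => ?_⟩
  obtain ⟨n, rfl⟩ := hf p
  exact hg2 n

theorem sum_bound {ψ : C(UnitAddCircle, ℝ)} (hψ : IsSemi ψ) {S : ℝ} {g : C(ℝ, ℝ)}
    (hg : IsSum ψ S g) (t : ℝ) : |g t| ≤ S := G16.IsSum.bound hψ.bound hg t

theorem Gs_dense : Dense Gs := by
  obtain ⟨ψ, hψ⟩ := Al.semi
  intro b₀
  have h : ∀ n : ℕ, ∃ g : C(ℝ, ℝ), IsSum ψ (1 / ((n : ℝ) + 1)) g ∧ b₀ + g ∈ Gs := fun n =>
    near hψ b₀ (by positivity)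
  choose g hg1 hg2 using h
  refine mem_closure_of_tendsto (f := fun n => b₀ + g n) (b := atTop) ?_
    (Eventually.of_forall hg2)
  rw [ContinuousMap.tendsto_iff_tendstoLocallyUniformly]
  refine TendstoUniformly.tendstoLocallyUniformly ?_
  rw [Metric.tendstoUniformly_iff]
  intro ε hε
  filter_upwards [(tendsto_one_div_add_atTop_nhds_zero_nat (𝕜 := ℝ)).eventually_lt_const hε]
    with n hn t
  have e : dist (b₀ t) ((b₀ + g n) t) = |g n t| := by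
    change dist (b₀ t) (b₀ t + g n t) = _
    rw [dist_eq_norm, Real.norm_eq_abs, sub_add_cancel_left, abs_neg]
  rw [e]
  exact (sum_bound hψ (hg1 n) t).trans_lt hn

end

end Pool.Agent.V8H97.GK
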