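import Pool.Agent.V8H97.GK.Dens
import Pool.Agent.V8H97.GK.Eig

/-!
Generic kinetic energies: open dense sets and absence of eigenvalues.
-/

namespace Pool.Agent.V8H97.GK

open MeasureTheory Pool.Agent.W792.LL Pool.Agent.W792.WA Pool.Agent.W19.WAPsi
open scoped Topology

noncomputable section

variable {d : ℕ}

/-! ### nondegenerate laws -/

theorem cay_inj {s t : ℝ} (h : cay s = cay t) : s = t := by
  unfold cay at h
  have h1 := Pool.Agent.W320.LL.cay_ne s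
  have h2 := Pool.Agent.W320.LL.cay_ne t
  rw [div_eq_div_iff h1 h2] at h
  have h3 : (2 * Complex.I) * ((s : ℂ) - t) = 0 := by linear_combination -h
  have h4 : (2 * Complex.I : ℂ) ≠ 0 := mul_ne_zero two_ne_zero Complex.I_ne_zero
  have h5 : (s : ℂ) - t = 0 := (mul_eq_zero.1 h3).resolve_left h4
  have h6 : (s : ℂ) = t := by linear_combination h5
  exact_mod_cast h6

theorem vr_pos (ν : Measure ℝ) [IsProbabilityMeasure ν] (h : ∀ a : ℝ, ν {a} < 1) : 0 < vr ν := by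
  by_contra hcon
  have h0 := vr_nonneg ν
  have h1 : ‖∫ x, cay x ∂ν‖ ^ 2 = 1 := by
    have : vr ν = 1 - ‖∫ x, cay x ∂ν‖ ^ 2 := rfl
    linarith
  set m := ∫ x, cay x ∂ν with hm
  have hi : Integrable cay ν := Integrable.of_bound meas_cay.aestronglyMeasurable 1
    (Filter.Eventually.of_forall fun x => (cay_norm x).le)
  have h2 : ∫ x, ‖cay x - m‖ ^ 2 ∂ν = 0 := by
    have e1 : ∀ x, ‖cay x - m‖ ^ 2 = 2 - 2 * ((starRingEnd ℂ) m * cay x).re := by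
      intro x
      have h3 := cay_norm x
      have h4 : ‖cay x - m‖ ^ 2 = ‖cay x‖ ^ 2 + ‖m‖ ^ 2 - 2 * ((starRingEnd ℂ) m * cay x).re := by
        simp only [Complex.sq_norm, Complex.normSq_apply, Complex.sub_re, Complex.sub_im,
          Complex.mul_re, Complex.conj_re, Complex.conj_im]
        ring
      rw [h4, h3, h1]
      ring
    simp only [e1]
    have i1 : Integrable (fun x => ((starRingEnd ℂ) m * cay x).re) ν := (hi.const_mul _).re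
    rw [integral_sub (integrable_const _) (i1.const_mul 2), integral_const_mul]
    have e2 : ∫ x, ((starRingEnd ℂ) m * cay x).re ∂ν = 1 := by
      have e3 : ∫ x, ((starRingEnd ℂ) m * cay x).re ∂ν
          = (∫ x, (starRingEnd ℂ) m * cay x ∂ν).re :=
        Complex.reCLM.integral_comp_comm (hi.const_mul _)
      rw [e3, integral_const_mul, ← hm, Complex.conj_mul', ← Complex.ofReal_pow,
        Complex.ofReal_re, h1]
    rw [e2]
    simp
  have h3 : (fun x => ‖cay x - m‖ ^ 2) =ᵐ[ν] 0 := by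
    refine (integral_eq_zero_iff_of_nonneg (fun x => by positivity) ?_).1 h2
    refine Integrable.of_bound (((meas_cay.sub measurable_const).norm).pow_const 2).aestronglyMeasurable
      4 (Filter.Eventually.of_forall fun x => ?_)
    rw [Real.norm_of_nonneg (by positivity)]
    have h4 : ‖m‖ = 1 := by
      have := norm_nonneg m
      nlinarith
    have h5 : ‖cay x - m‖ ≤ 2 := by
      calc ‖cay x - m‖ ≤ ‖cay x‖ + ‖m‖ := norm_sub_le _ _
        _ = 2 := by rw [cay_norm, h4]; norm_num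
    nlinarith [norm_nonneg (cay x - m)]
  have h4 : ∀ᵐ x ∂ν, cay x = m := by
    filter_upwards [h3] with x hx
    have hx' : ‖cay x - m‖ ^ 2 = 0 := hx
    have h5 : ‖cay x - m‖ = 0 := by
      have := norm_nonneg (cay x - m)
      nlinarith
    exact sub_eq_zero.1 (norm_eq_zero.1 h5)
  obtain ⟨a, ha⟩ := h4.exists
  have h5 : ∀ᵐ x ∂ν, x ∈ ({a} : Set ℝ) := by
    filter_upwards [h4] with x hx
    exact cay_inj (hx.trans ha.symm)
  have h6 : ν {a} = 1 := (prob_compl_eq_zero_iff (measurableSet_singleton a)).1 h5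
  exact absurd h6 (h a).ne

/-! ### continuity in the kinetic energy -/

theorem gf_lip (D η : ℝ) (hη : 0 < η) : ∃ L : ℝ, 0 < L ∧
    ∀ (K K' : C(UnitAddTorus (Fin d), ℝ)) (v : (Fin d → ℤ) → ℝ) (z : ℂ), z.im = η →
      ‖K‖ + ‖z‖ ≤ D → ‖K'‖ + ‖z‖ ≤ D → ‖gf K 1 v z - gf K' 1 v z‖ ≤ L * ‖K - K'‖ := by
  obtain ⟨q, hq0, hq1, hq⟩ := Al.cx.2.2.1 0 D η hη
  have hq' : 0 < 1 - q := by linarith
  refine ⟨4 / (1 - q) ^ 2, by positivity, fun K K' v z hz hK hK' => ?_⟩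
  have hz0 : 0 < z.im := by rw [hz]; exact hη
  have hus : ∀ K : C(UnitAddTorus (Fin d), ℝ), ‖K‖ + ‖z‖ ≤ D →
      ‖us (Measure.dirac 0) 1 z K‖ ≤ q := by
    intro K hK
    refine (ContinuousMap.norm_le _ hq0).2 fun k => ?_
    rw [us_apply _ hz0]
    refine hq _ _ ?_ ?_ (by simp)
    · refine ((norm_sub_le _ _).trans ?_).trans hK
      rw [Complex.norm_real]
      exact add_le_add (K.norm_coe_le_norm _) le_rfl
    · rw [Complex.sub_im, Complex.ofReal_im, zero_sub, hz]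
  have hd : ‖us (Measure.dirac 0) 1 z K - us (Measure.dirac 0) 1 z K'‖ ≤ 2 * ‖K - K'‖ := by
    refine (ContinuousMap.norm_le _ (by positivity)).2 fun k => ?_
    change ‖us (Measure.dirac 0) 1 z K k - us (Measure.dirac 0) 1 z K' k‖ ≤ _
    rw [us_apply _ hz0, us_apply _ hz0]
    have h1 := Al.cx.2.1 ((K k : ℂ) - z) ((K' k : ℂ) - z) 0 0
      (by rw [Complex.sub_im, Complex.ofReal_im]; linarith)
      (by rw [Complex.sub_im, Complex.ofReal_im]; linarith)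
    refine h1.trans ?_
    have h2 : ‖(K k : ℂ) - z - ((K' k : ℂ) - z)‖ = ‖(K - K') k‖ := by
      have : (K k : ℂ) - z - ((K' k : ℂ) - z) = (((K - K') k : ℝ) : ℂ) := by
        change _ = ((K k - K' k : ℝ) : ℂ)
        push_cast
        ring
      rw [this, Complex.norm_real]
    rw [h2]
    simp only [sub_self, abs_zero, add_zero]
    exact mul_le_mul_of_nonneg_left ((K - K').norm_coe_le_norm k) (by norm_num)
  rw [gf_ge, gf_ge]
  refine (ge_diff _ _ v).trans ?_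
  have h3 := (Al.zf d _ _ (fun x => cay (v x)) q hq0 hq1 (hus K hK) (hus K' hK')
    fun x => (cay_norm (v x)).le).2.2.1
  calc 2 * ‖Zf (us (Measure.dirac 0) 1 z K) (fun x => cay (v x))
        - Zf (us (Measure.dirac 0) 1 z K') (fun x => cay (v x))‖
      ≤ 2 * (2 * ‖K - K'‖ / (1 - q) ^ 2) := by
        refine mul_le_mul_of_nonneg_left (h3.trans ?_) (by norm_num)
        exact div_le_div_of_nonneg_right hd (by positivity)
    _ = 4 / (1 - q) ^ 2 * ‖K - K'‖ := by ring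

/-- The open sets. -/
def OO (d : ℕ) (κ N : ℝ) (m : ℕ) : Set C(UnitAddTorus (Fin d), ℝ) :=
  {K | ∃ η c : ℝ, 0 < η ∧ η ≤ 1 ∧ 0 < c ∧ c < 1 / ((m : ℝ) + 1) ∧
    ∀ (ν : Measure ℝ) [IsProbabilityMeasure ν], κ ≤ vr ν →
      Pn ν (Fin d → ℤ) (Bad K η c N) ≤ ENNReal.ofReal (1 / ((m : ℝ) + 1))}

theorem isOpen_OO (κ N : ℝ) (hN : 0 ≤ N) (m : ℕ) : IsOpen (OO d κ N m) := by
  rw [Metric.isOpen_iff]
  rintro K ⟨η, c, hη, hη1, hc, hcm, h⟩
  obtain ⟨L, hL, hlip⟩ := gf_lip (d := d) (‖K‖ + 1 + (N + 1)) η hη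
  set c' : ℝ := (c + 1 / ((m : ℝ) + 1)) / 2 with hc'
  have hcc : c < c' := by rw [hc']; linarith
  refine ⟨min 1 ((c' - c) / L), lt_min one_pos (div_pos (by linarith) hL), fun K' hK' => ?_⟩
  rw [Metric.mem_ball, dist_eq_norm] at hK'
  have h1 : ‖K' - K‖ ≤ 1 := hK'.le.trans (min_le_left _ _)
  have h2 : L * ‖K' - K‖ ≤ c' - c := by
    have := hK'.le.trans (min_le_right _ _)
    rw [le_div_iff₀ hL] at this
    linarith
  refine ⟨η, c', hη, hη1, by linarith, by rw [hc']; linarith, fun ν _ hν => ?_⟩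
  refine (measure_mono ?_).trans (h ν hν)
  rintro v ⟨E, hE, hv⟩
  refine ⟨E, hE, ?_⟩
  have hzn : ‖(⟨E, η⟩ : ℂ)‖ ≤ N + 1 := by
    refine (Complex.norm_le_abs_re_add_abs_im _).trans ?_
    change |E| + |η| ≤ N + 1
    rw [abs_of_pos hη]
    linarith
  have hK'n : ‖K'‖ ≤ ‖K‖ + 1 := by
    have := norm_add_le K (K' - K)
    rw [add_sub_cancel] at this
    linarith
  have h3 := hlip K' K v ⟨E, η⟩ rfl (by linarith) (by linarith)
  have h4 : ‖gf K' 1 v ⟨E, η⟩‖ ≤ ‖gf K 1 v ⟨E, η⟩‖ + ‖gf K' 1 v ⟨E, η⟩ - gf K 1 v ⟨E, η⟩‖ := by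
    have := norm_add_le (gf K 1 v ⟨E, η⟩) (gf K' 1 v ⟨E, η⟩ - gf K 1 v ⟨E, η⟩)
    rwa [add_sub_cancel] at this
  have h5 : η * ‖gf K' 1 v ⟨E, η⟩ - gf K 1 v ⟨E, η⟩‖ ≤ c' - c := by
    calc η * ‖gf K' 1 v ⟨E, η⟩ - gf K 1 v ⟨E, η⟩‖ ≤ 1 * (L * ‖K' - K‖) :=
          mul_le_mul hη1 h3 (norm_nonneg _) zero_le_one
      _ ≤ c' - c := by linarith
  have h6 : η * ‖gf K' 1 v ⟨E, η⟩‖ ≤ η * ‖gf K 1 v ⟨E, η⟩‖
      + η * ‖gf K' 1 v ⟨E, η⟩ - gf K 1 v ⟨E, η⟩‖ := by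
    rw [← mul_add]
    exact mul_le_mul_of_nonneg_left h4 hη.le
  linarith

/-- The density. -/
theorem dense_OO {ψ : C(UnitAddCircle, ℝ)} (hψ : IsSemi ψ) (hd : 0 < d) {κ : ℝ} (hκ : 0 < κ)
    {N : ℝ} (hN : 0 ≤ N) (m : ℕ) {l : ℝ} (hl : 0 < l) (K : C(UnitAddTorus (Fin d), ℝ)) :
    ∃ M₀ : ℕ, ∀ M : ℕ, M₀ ≤ M → addL ψ K l M ∈ OO d κ N m := by
  have hm : (0 : ℝ) < 1 / ((m : ℝ) + 1) := by positivity
  obtain ⟨η, hη, -, hη1, M₀, h⟩ := dens hψ hd hκ hl hN (half_pos hm) hm one_pos K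
  exact ⟨M₀, fun M hM => ⟨η, _, hη, hη1, half_pos hm, by linarith, fun ν _ hν => h M hM ν hν⟩⟩

/-! ### no eigenvalues -/

/-- The operator with symbol `K` and potential `v` has no eigenvalue. -/
def NoEv (K : C(UnitAddTorus (Fin d), ℝ)) (v : (Fin d → ℤ) → ℝ) : Prop :=
  ∀ (E : ℝ) (u : (Fin d → ℤ) → ℂ), Summable (fun x => ‖u x‖ ^ 2) →
    (∀ x, ∑' y, hopK K (x - y) * u y + (v x : ℂ) * u x = (E : ℂ) * u x) → u = 0

/-- No eigenfunction is nonzero at the origin. -/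
def NoE0 (K : C(UnitAddTorus (Fin d), ℝ)) (v : (Fin d → ℤ) → ℝ) : Prop :=
  ∀ (E : ℝ) (u : (Fin d → ℤ) → ℂ), Summable (fun x => ‖u x‖ ^ 2) →
    (∀ x, ∑' y, hopK K (x - y) * u y + (v x : ℂ) * u x = (E : ℂ) * u x) → u 0 = 0

theorem ae_NoE0 {κ : ℝ} {K : C(UnitAddTorus (Fin d), ℝ)}
    (hK : ∀ (N m : ℕ), K ∈ OO d κ N m) (ν : Measure ℝ) [IsProbabilityMeasure ν]
    (hν : κ ≤ vr ν) : ∀ᵐ v ∂(Pn ν (Fin d → ℤ)), NoE0 K v := by
  set B : ℕ → ℕ → Set ((Fin d → ℤ) → ℝ) := fun N m₀ =>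
    {v | ∀ m, m₀ ≤ m → ∀ η c : ℝ, 0 < η → c < 1 / ((m : ℝ) + 1) → v ∈ Bad K η c N} with hB
  have h1 : ∀ N m₀, Pn ν (Fin d → ℤ) (B N m₀) = 0 := by
    intro N m₀
    have h2 : ∀ m, m₀ ≤ m → Pn ν (Fin d → ℤ) (B N m₀) ≤ ENNReal.ofReal (1 / ((m : ℝ) + 1)) := by
      intro m hm
      obtain ⟨η, c, hη, hη1, hc, hcm, h⟩ := hK N m
      have hsub : B N m₀ ⊆ Bad K η c N := fun v hv => hv m hm η c hη hcm
      exact (measure_mono hsub).trans (h ν hν)
    have h3 : Filter.Tendsto (fun m : ℕ => ENNReal.ofReal (1 / ((m : ℝ) + 1))) Filter.atTop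
        (𝓝 0) := by
      rw [← ENNReal.ofReal_zero]
      exact ENNReal.tendsto_ofReal tendsto_one_div_add_atTop_nhds_zero_nat
    exact le_antisymm (ge_of_tendsto h3 (Filter.eventually_atTop.2 ⟨m₀, h2⟩)) zero_le
  have h2 : Pn ν (Fin d → ℤ) (⋃ N, ⋃ m₀, B N m₀) = 0 := by
    rw [measure_iUnion_null_iff]
    intro N
    rw [measure_iUnion_null_iff]
    exact h1 N
  rw [ae_iff]
  refine measure_mono_null ?_ h2
  intro v hv
  simp only [Set.mem_ofPred_eq] at hv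
  unfold NoE0 at hv
  push Not at hv
  obtain ⟨E, u, hu, heq, hu0⟩ := hv
  rw [Set.mem_iUnion]
  obtain ⟨N, hN⟩ := exists_nat_ge |E|
  refine ⟨N, ?_⟩
  rw [Set.mem_iUnion]
  have hpos : 0 < ‖u 0‖ ^ 2 := by
    have := norm_pos_iff.2 hu0
    positivity
  have hsum : 0 < ∑' x, ‖u x‖ ^ 2 := hu.tsum_pos (fun x => by positivity) 0 hpos
  obtain ⟨m₀, hm₀⟩ := exists_nat_one_div_lt (div_pos hpos hsum)
  refine ⟨m₀, fun m hm η c hη hcm => ⟨E, hN, ?_⟩⟩
  have h3 := eig_le K v E hη u hu heq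
  have h4 : ‖u 0‖ ^ 2 / ∑' x, ‖u x‖ ^ 2 ≤ η * ‖gf K 1 v ⟨E, η⟩‖ := by
    rw [div_le_iff₀ hsum]
    exact h3
  have h5 : 1 / ((m : ℝ) + 1) ≤ 1 / ((m₀ : ℝ) + 1) := by
    apply one_div_le_one_div_of_le (by positivity)
    have : (m₀ : ℝ) ≤ m := by exact_mod_cast hm
    linarith
  linarith

theorem shift_eq {K : C(UnitAddTorus (Fin d), ℝ)} {v : (Fin d → ℤ) → ℝ} {E : ℝ}
    {u : (Fin d → ℤ) → ℂ}
    (heq : ∀ x, ∑' y, hopK K (x - y) * u y + (v x : ℂ) * u x = (E : ℂ) * u x) (x y : Fin d → ℤ) :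
    ∑' y', hopK K (y - y') * u (y' + x) + (v (y + x) : ℂ) * u (y + x) = (E : ℂ) * u (y + x) := by
  have h2 := heq (y + x)
  have h3 : ∑' y', hopK K (y + x - y') * u y' = ∑' y', hopK K (y - y') * u (y' + x) := by
    rw [← (Equiv.addRight x).tsum_eq (fun y' => hopK K (y + x - y') * u y')]
    refine tsum_congr fun y' => ?_
    rw [Equiv.coe_addRight, add_sub_add_right_eq_sub]
  rw [← h3]
  exact h2

theorem shift_sum {u : (Fin d → ℤ) → ℂ} (hu : Summable fun x => ‖u x‖ ^ 2) (x : Fin d → ℤ) :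
    Summable fun y => ‖u (y + x)‖ ^ 2 :=
  hu.comp_injective (add_left_injective x)

theorem noEv_of_shift {K : C(UnitAddTorus (Fin d), ℝ)} {v : (Fin d → ℤ) → ℝ}
    (hv : ∀ x : Fin d → ℤ, NoE0 K fun y => v (y + x)) : NoEv K v := by
  intro E u hu heq
  funext x
  have h1 := hv x E (fun y => u (y + x)) (shift_sum hu x) (shift_eq heq x)
  have h4 : u (0 + x) = 0 := h1
  rw [zero_add] at h4
  rw [h4]
  rfl

theorem ae_NoEv {κ : ℝ} {K : C(UnitAddTorus (Fin d), ℝ)}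
    (hK : ∀ (N m : ℕ), K ∈ OO d κ N m) (ν : Measure ℝ) [IsProbabilityMeasure ν]
    (hν : κ ≤ vr ν) : ∀ᵐ v ∂(Pn ν (Fin d → ℤ)), NoEv K v := by
  filter_upwards [Al.shf ν d (fun v => NoE0 K v) (ae_NoE0 hK ν hν)] with v hv
  exact noEv_of_shift hv

/-- All laws and all couplings. -/
theorem all_NoEv {K : C(UnitAddTorus (Fin d), ℝ)}
    (hK : ∀ (j N m : ℕ), K ∈ OO d (1 / ((j : ℝ) + 1)) N m) (ν : Measure ℝ)
    [IsProbabilityMeasure ν] (hν : ∀ a : ℝ, ν {a} < 1) {lam : ℝ} (hlam : lam ≠ 0) :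
    ∀ᵐ v ∂(Pn ν (Fin d → ℤ)), NoEv K (fun x => lam * v x) := by
  have hprob : IsProbabilityMeasure (ν.map fun x => lam * x) :=
    Measure.isProbabilityMeasure_map (by fun_prop)
  have h1 : ∀ a : ℝ, (ν.map fun x => lam * x) {a} < 1 := by
    intro a
    rw [Measure.map_apply (by fun_prop) (measurableSet_singleton a)]
    have : (fun x => lam * x) ⁻¹' {a} = {a / lam} := by
      ext x
      simp only [Set.mem_preimage, Set.mem_singleton_iff]
      rw [eq_div_iff hlam, mul_comm]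
    rw [this]
    exact hν _
  have h2 := vr_pos _ h1
  obtain ⟨j, hj⟩ := exists_nat_one_div_lt h2
  exact Al.sca ν lam d _ (ae_NoEv (hK j) (ν.map fun x => lam * x) hj.le)

end

end Pool.Agent.V8H97.GK
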