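import Pool.Agent.V8H97.GK.Mean

/-!
Generic kinetic energies: the limit of a fast oscillating level.
-/

namespace Pool.Agent.V8H97.GK

open MeasureTheory Pool.Agent.W792.LL Pool.Agent.W792.WA Pool.Agent.W19.WAPsi
open Complex (I)

noncomputable section

variable {d : ℕ}

/-- The symbol with the additional circle variable. -/
def Wl (ψ : C(UnitAddCircle, ℝ)) (l : ℝ) (K : C(UnitAddTorus (Fin d), ℝ)) (z : ℂ) (hz : 0 < z.im) :
    C(UnitAddTorus (Fin d) × UnitAddCircle, ℂ) :=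
  ⟨fun p => cayx ((K p.1 : ℂ) - z) (l * ψ p.2), by
    unfold cayx
    have h1 : Continuous fun p : UnitAddTorus (Fin d) × UnitAddCircle =>
        (K p.1 : ℂ) - z + ((l * ψ p.2 : ℝ) : ℂ) := by fun_prop
    refine (h1.add continuous_const).div (h1.sub continuous_const) fun p => ?_
    refine sub_I_ne ?_
    simp only [Complex.add_im, Complex.sub_im, Complex.ofReal_im]
    linarith⟩

theorem cayx_eq {x : ℂ} {a : ℝ} (hx : x.im ≤ 0) : cayx x a = 1 + 2 * I / (x + a - I) := by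
  have h : x + a - I ≠ 0 := by
    refine sub_I_ne ?_
    rw [Complex.add_im, Complex.ofReal_im, add_zero]
    exact hx
  unfold cayx
  field_simp
  ring

theorem us_apply (K : C(UnitAddTorus (Fin d), ℝ)) {z : ℂ} (hz : 0 < z.im)
    (k : UnitAddTorus (Fin d)) :
    us (Measure.dirac 0) 1 z K k = cayx ((K k : ℂ) - z) 0 := by
  have h0 : (Measure.dirac (0 : ℝ)) (Set.Icc (-(0 : ℝ)) 0)ᶜ = 0 := by simp
  have hc := (Pool.Agent.W156.WAFin.hC (Measure.dirac 0) 0 le_rfl h0 1 one_pos z hz.le).1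
  have hc' : Continuous fun k : UnitAddTorus (Fin d) => uf (Measure.dirac 0) 1 z (K k) :=
    hc.comp K.continuous
  unfold us
  rw [toC_apply hc']
  rw [Pool.Agent.W320.LL.uf_dirac, cayx_eq (by
    rw [Complex.sub_im, Complex.ofReal_im]; linarith)]
  push_cast
  rw [div_eq_mul_inv]
  ring_nf

theorem WM_eq (ψ : C(UnitAddCircle, ℝ)) (l : ℝ) (K : C(UnitAddTorus (Fin d), ℝ)) {z : ℂ}
    (hz : 0 < z.im) (M : ℕ) :
    WM (Wl ψ l K z hz) M = us (Measure.dirac 0) 1 z (addL ψ K l M) := by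
  ext k
  rw [us_apply _ hz]
  have hc : Continuous fun k : UnitAddTorus (Fin d) =>
      Wl ψ l K z hz (k, ((M * lap d k / (2 * Real.pi) : ℝ) : UnitAddCircle)) := by
    have h : Continuous fun k : UnitAddTorus (Fin d) =>
        ((M * lap d k / (2 * Real.pi) : ℝ) : UnitAddCircle) :=
      (AddCircle.continuous_mk' (1 : ℝ)).comp (by fun_prop)
    exact (Wl ψ l K z hz).continuous.comp (continuous_id.prodMk h)
  unfold WM
  rw [toC_apply hc]
  change cayx ((K k : ℂ) - z) (l * ψ _) = cayx (((K k + l * ψ _ : ℝ) : ℂ) - z) 0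
  unfold cayx
  push_cast
  congr 1 <;> ring

/-- The effective medium for one law. -/
theorem eff {ψ : C(UnitAddCircle, ℝ)} (hψ : IsSemi ψ) (ν : Measure ℝ) [IsProbabilityMeasure ν]
    (hν : 0 < vr ν) {l : ℝ} (hl : 0 < l) (K : C(UnitAddTorus (Fin d), ℝ)) {z : ℂ} (hz : 0 < z.im)
    {q : ℝ} (hq0 : 0 ≤ q) (hq1 : q < 1)
    (hq : ∀ (x : ℂ) (a : ℝ), ‖x‖ ≤ ‖K‖ + ‖z‖ → x.im ≤ -z.im → |a| ≤ l → ‖cayx x a‖ ≤ q) :
    ∃ s U : C(UnitAddTorus (Fin d), ℂ), ‖s‖ ≤ 1 ∧ ‖U‖ ≤ q ∧ psi ν U = s ∧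
      (∀ k, U k / (1 - U k * s k) = ∫ φ in Set.Ioc (0 : ℝ) 1,
        Wl ψ l K z hz (k, (φ : UnitAddCircle)) / (1 - Wl ψ l K z hz (k, φ) * s k)) ∧
      (∀ k, 0 ≤ (gg ν U k).im) ∧
      ∀ k, 1 - ‖U k‖ ^ 2 = ‖1 - U k‖ ^ 2 * (z.im + l ^ 2 / 4 * (gg ν U k).im) := by
  have hpl := Pool.Agent.W685.WA.Step.prob_lev ψ l
  have hsupp : (lev ψ l) (Set.Icc (-l) l)ᶜ = 0 := by
    have h1 := Pool.Agent.W685.WA.Step.lev_supp hψ hl
    rw [ae_iff] at h1
    refine measure_mono_null (fun a ha => ?_) h1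
    simp only [Set.mem_ofPred_eq] at *
    intro h2
    exact ha (abs_le.1 h2)
  have hcont : Continuous (Function.uncurry (wz K z)) := Al.cx.2.2.2 d K z hz.le
  have hKz : ∀ k, ‖(K k : ℂ) - z‖ ≤ ‖K‖ + ‖z‖ := by
    intro k
    refine (norm_sub_le _ _).trans ?_
    rw [Complex.norm_real]
    exact add_le_add (K.norm_coe_le_norm k) le_rfl
  have hKi : ∀ k, ((K k : ℂ) - z).im = -z.im := by
    intro k
    rw [Complex.sub_im, Complex.ofReal_im, zero_sub]
  have hw : ∀ k, ∀ a ∈ Set.Icc (-l) l, ‖wz K z k a‖ ≤ q := fun k a ha =>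
    hq _ _ (hKz k) (hKi k).le (abs_le.2 ha)
  obtain ⟨hex, hgap, -⟩ := Al.fix ν d (lev ψ l) l q (wz K z) hν hsupp hcont hq0 hq1 hw
  obtain ⟨s, hs, -⟩ := hex
  obtain ⟨hUk, hUn⟩ := Al.uuc d (lev ψ l) l q (wz K z) s hsupp hcont hq0 hq1.le hw hs.1 (by
    nlinarith [hs.1, norm_nonneg s])
  set U := UU (lev ψ l) (wz K z) s with hU
  have hU1 : ‖U‖ < 1 := hUn.trans_lt hq1
  have hsk : ∀ k, ‖s k‖ < 1 := by
    intro k
    have h1 := hgap s hs k
    have h2 : 0 < (1 - q ^ 2) * vr ν / 4 := by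
      have : 0 < 1 - q ^ 2 := by nlinarith
      positivity
    nlinarith [norm_nonneg (s k)]
  have hUk1 : ∀ k, ‖U k‖ < 1 := fun k => (U.norm_coe_le_norm k).trans_lt hU1
  have hwq : ∀ k, ∀ᵐ a ∂(lev ψ l), ‖wz K z k a‖ ≤ q := by
    intro k
    filter_upwards [Pool.Agent.W685.WA.Step.lev_supp hψ hl] with a ha
    exact hq _ _ (hKz k) (hKi k).le ha
  have heq : ∀ k, U k / (1 - U k * s k) = ∫ φ in Set.Ioc (0 : ℝ) 1,
        Wl ψ l K z hz (k, (φ : UnitAddCircle)) / (1 - Wl ψ l K z hz (k, φ) * s k) := by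
    intro k
    have hmw : Measurable (wz K z k) := Pool.Agent.W685.WA.Step.meas_cayx _
    have h1 := (Al.sc1 (lev ψ l) (wz K z k) q (s k) hmw hq0 hq1.le (hwq k) (hsk k).le (by
      nlinarith [hsk k, norm_nonneg (s k)])).2.2.2.2
    rw [hUk k, h1]
    unfold Bs lev
    have hm2 : Measurable fun a => wz K z k a / (1 - wz K z k a * s k) :=
      hmw.div (measurable_const.sub (hmw.mul measurable_const))
    rw [integral_map (Pool.Agent.W685.WA.Step.meas_lev ψ l).aemeasurable hm2.aestronglyMeasurable]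
    rfl
  have hps : psi ν U = s := hs.2
  have hggk : ∀ k, gg ν U k = gsc (s k) (U k) := by
    intro k
    obtain ⟨h1, h2, h3, h4, h5, h6⟩ := (Al.psi ν d q U U hq0 hq1 hUn hUn).1 k
    have h7 : gg ν U k = (I / 2) * ((1 + U k * csym ν U k - csym ν U k) * (1 - U k)) := rfl
    rw [hps] at h4 h5
    rw [h7, h5]
    unfold gsc
    field_simp
    ring
  have hsemi := fun k => semi_id hψ hl (x₀ := (K k : ℂ) - z) (s := s k) (U := U k)
    (by rw [hKi k]; linarith) (hsk k) (hUk1 k) (heq k)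
  refine ⟨s, U, hs.1, hUn, hps, heq, fun k => ?_, fun k => ?_⟩
  · rw [hggk k]
    exact (hsemi k).1
  · rw [hggk k]
    have := (hsemi k).2
    rw [hKi k, neg_neg] at this
    exact this

end

end Pool.Agent.V8H97.GK
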