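import Pool.Agent.V8H97.GK.Ops

/-!
Generic kinetic energies: second moment of the Green function of the effective medium.
-/

namespace Pool.Agent.V8H97.GK

open MeasureTheory Pool.Agent.W792.LL Pool.Agent.W792.WA Pool.Agent.W19.WAPsi
open Complex (I)

noncomputable section

variable {d : ℕ}

theorem cR_sub (f g : C(UnitAddTorus (Fin d), ℝ)) : cR (f - g) = cR f - cR g := by
  ext k
  change cR (f - g) k = cR f k - cR g k
  rw [cR_apply, cR_apply, cR_apply]
  change ((f k - g k : ℝ) : ℂ) = _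
  push_cast
  rfl

theorem cR_smul (c : ℝ) (f : C(UnitAddTorus (Fin d), ℝ)) : cR (c • f) = (c : ℂ) • cR f := by
  ext k
  change cR (c • f) k = (c : ℂ) * cR f k
  rw [cR_apply, cR_apply]
  change ((c * f k : ℝ) : ℂ) = _
  push_cast
  rfl

theorem pos_sym (f : C(UnitAddTorus (Fin d), ℝ)) (hf : ∀ k, 0 ≤ f k) (u : l2 (Fin d → ℤ)) :
    0 ≤ (inner ℂ u (opr (cR f) u) : ℂ).re :=
  ((Al.symb d).2.2.1 (cR f)).2 (fun k => by rw [cR_apply, Complex.ofReal_re]; exact hf k) u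

/-- Comparison of real symbols. -/
theorem mono_sym (f g : C(UnitAddTorus (Fin d), ℝ)) (h : ∀ k, f k ≤ g k) (u : l2 (Fin d → ℤ)) :
    (inner ℂ u (opr (cR f) u) : ℂ).re ≤ (inner ℂ u (opr (cR g) u) : ℂ).re := by
  have h1 := pos_sym (g - f) (fun k => by
    change 0 ≤ g k - f k
    linarith [h k]) u
  rw [cR_sub, opr_sub] at h1
  change 0 ≤ (inner ℂ u (opr (cR g) u - opr (cR f) u) : ℂ).re at h1
  rw [inner_sub_right, Complex.sub_re] at h1
  linarith

/-- Constant symbols. -/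
def cst (d : ℕ) (c : ℝ) : C(UnitAddTorus (Fin d), ℝ) := ContinuousMap.const _ c

theorem cst_sym (c : ℝ) (u : l2 (Fin d → ℤ)) :
    (inner ℂ u (opr (cR (cst d c)) u) : ℂ).re = c * ‖u‖ ^ 2 := by
  have h1 : cR (cst d c) = (c : ℂ) • (1 : C(UnitAddTorus (Fin d), ℂ)) := by
    ext k
    rw [cR_apply]
    change (c : ℂ) = (c : ℂ) * 1
    rw [mul_one]
  rw [h1, opr_smul, opr_one]
  change (inner ℂ u ((c : ℂ) • u) : ℂ).re = _
  rw [inner_smul_right, inn_self, ← Complex.ofReal_mul, Complex.ofReal_re]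

theorem norm_dl0 : ‖(dl 0 : l2 (Fin d → ℤ))‖ = 1 := Pool.Agent.W304.WA.Zfw.norm_dl 0

theorem inner_opr_left (a : C(UnitAddTorus (Fin d), ℝ)) (u w : l2 (Fin d → ℤ)) :
    (inner ℂ (opr (cR a) u) w : ℂ) = inner ℂ u (opr (cR a) w) := by
  have h := (Al.symb d).1 (cR a) 1 u w
  rw [opr_one] at h
  change (inner ℂ (opr (cR a) u) w : ℂ) = _ at h
  rw [h]
  congr 2
  congr 1
  ext k
  change (starRingEnd ℂ) (cR a k) * 1 = cR a k
  rw [cR_apply, Complex.conj_ofReal, mul_one]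

section main

variable {U : C(UnitAddTorus (Fin d), ℂ)} (hU : ‖U‖ < 1) (v : (Fin d → ℤ) → ℝ)
  (t b : C(UnitAddTorus (Fin d), ℝ)) (ht : ∀ k, 1 - ‖U k‖ ^ 2 = ‖1 - U k‖ ^ 2 * t k)
  {η l : ℝ} (hη : 0 < η) (hl : 0 < l) (htb : ∀ k, t k = η + l ^ 2 / 4 * b k) (hb : ∀ k, 0 ≤ b k)

include hU ht hη htb hb in
theorem diss (φ : l2 (Fin d → ℤ)) : η * ‖GG U v φ‖ ^ 2 ≤ (inner ℂ φ (GG U v φ) : ℂ).im := by
  rw [← ward hU v t ht φ, ← cst_sym]
  refine mono_sym _ _ (fun k => ?_) _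
  rw [htb k]
  change η ≤ _
  have := hb k
  have : 0 ≤ l ^ 2 / 4 * b k := by positivity
  linarith

/-- The low part. -/
def hs (a : ℝ) (ha : 0 < a) (b : C(UnitAddTorus (Fin d), ℝ)) (hb : ∀ k, 0 ≤ b k) :
    C(UnitAddTorus (Fin d), ℝ) :=
  ⟨fun k => a / (a + b k), by
    refine continuous_const.div (by fun_prop) fun k => ?_
    have := hb k
    positivity⟩

/-- The high part. -/
def hs' (a : ℝ) (ha : 0 < a) (b : C(UnitAddTorus (Fin d), ℝ)) (hb : ∀ k, 0 ≤ b k) :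
    C(UnitAddTorus (Fin d), ℝ) :=
  ⟨fun k => b k / (a + b k), by
    refine b.continuous.div (by fun_prop) fun k => ?_
    have := hb k
    positivity⟩

/-- The weight. -/
def hwt (a : ℝ) (ha : 0 < a) (b : C(UnitAddTorus (Fin d), ℝ)) (hb : ∀ k, 0 ≤ b k) :
    C(UnitAddTorus (Fin d), ℝ) :=
  ⟨fun k => b k / (a + b k) ^ 2, by
    refine b.continuous.div (by fun_prop) fun k => ?_
    have := hb k
    positivity⟩

theorem split (a : ℝ) (ha : 0 < a) (b : C(UnitAddTorus (Fin d), ℝ)) (hb : ∀ k, 0 ≤ b k)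
    (u : l2 (Fin d → ℤ)) : u = opr (cR (hs a ha b hb)) u + opr (cR (hs' a ha b hb)) u := by
  have h1 : cR (hs a ha b hb) + cR (hs' a ha b hb) = 1 := by
    ext k
    change cR (hs a ha b hb) k + cR (hs' a ha b hb) k = 1
    rw [cR_apply, cR_apply, ← Complex.ofReal_add]
    have h2 : hs a ha b hb k + hs' a ha b hb k = 1 := by
      change a / (a + b k) + b k / (a + b k) = 1
      have := hb k
      rw [← add_div]
      exact div_self (by positivity)
    rw [h2, Complex.ofReal_one]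
  have h2 : (opr (cR (hs a ha b hb)) + opr (cR (hs' a ha b hb))) u = u := by
    rw [← opr_add, h1, opr_one]
    rfl
  exact h2.symm

include hU ht hη htb hb hl in
/-- The main inequality, pointwise in the potential. -/
theorem main_pt {a : ℝ} (ha : 0 < a) :
    ‖ge U v‖ ^ 2 ≤ 4 / η * (inner ℂ (opr (cR (hs a ha b hb)) (dl 0))
      (GG U v (opr (cR (hs a ha b hb)) (dl 0))) : ℂ).im + 4 / (a ^ 2 * l ^ 4) := by
  set δ : l2 (Fin d → ℤ) := dl 0 with hδ
  set w : l2 (Fin d → ℤ) := GG U v δ with hw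
  set φ : l2 (Fin d → ℤ) := opr (cR (hs a ha b hb)) δ with hφ
  set P : ℝ := (inner ℂ φ (GG U v φ) : ℂ).im with hP
  have hge : ge U v = inner ℂ δ w := by
    rw [← GG_ge hU v, coord_inner (0 : Fin d → ℤ) (GG U v (dl 0))]
    rfl
  have hsp : (inner ℂ δ w : ℂ) = inner ℂ φ w + inner ℂ (opr (cR (hs' a ha b hb)) δ) w := by
    rw [← inner_add_left]
    congr 1
    exact split a ha b hb δ
  have hdl : ‖δ‖ = 1 := norm_dl0
  have h1 : ‖(inner ℂ φ w : ℂ)‖ ^ 2 ≤ 1 / η * P := by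
    have e1 : (inner ℂ φ w : ℂ) = inner ℂ (ContinuousLinearMap.adjoint (GG U v) φ) δ := by
      rw [ContinuousLinearMap.adjoint_inner_left]
    have e2 : ‖(inner ℂ φ w : ℂ)‖ ≤ ‖ContinuousLinearMap.adjoint (GG U v) φ‖ := by
      rw [e1]
      refine (norm_inner_le_norm _ _).trans ?_
      rw [hdl, mul_one]
    have e3 := adj_bound (GG U v) hη (diss hU v t b ht hη htb hb) φ
    have e4 := pow_le_pow_left₀ (norm_nonneg _) e2 2
    refine e4.trans ?_
    rw [one_div, ← div_eq_inv_mul, le_div_iff₀ hη]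
    linarith
  have h2 : ‖(inner ℂ (opr (cR (hs' a ha b hb)) δ) w : ℂ)‖ ^ 2 ≤
      1 / (4 * a) * (4 / l ^ 2 * (ge U v).im) := by
    rw [inner_opr_left]
    have e1 := ((Al.symb d).2.2.2.1 (cR (hs' a ha b hb)) (hwt a ha b hb) b 1 zero_le_one
      (fun k => by
        change 0 ≤ b k / (a + b k) ^ 2
        have := hb k
        positivity) hb).2 (fun k => by
        rw [cR_apply, Complex.norm_real, Real.norm_eq_abs, sq_abs]
        change (b k / (a + b k)) ^ 2 ≤ 1 * (b k / (a + b k) ^ 2) * b k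
        apply le_of_eq
        rw [div_pow]
        ring) δ w
    have e2 : (inner ℂ δ (opr (cR (hwt a ha b hb)) δ) : ℂ).re ≤ 1 / (4 * a) := by
      have e3 := mono_sym (hwt a ha b hb) (cst d (1 / (4 * a))) (fun k => by
        change b k / (a + b k) ^ 2 ≤ 1 / (4 * a)
        have := hb k
        rw [div_le_div_iff₀ (by positivity) (by positivity)]
        nlinarith [sq_nonneg (a - b k)]) δ
      rw [cst_sym, hdl] at e3
      linarith
    have e3 : (inner ℂ w (opr (cR b) w) : ℂ).re ≤ 4 / l ^ 2 * (ge U v).im := by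
      have e4 := mono_sym b ((4 / l ^ 2) • t) (fun k => by
        change b k ≤ 4 / l ^ 2 * t k
        rw [htb k]
        have e5 : 4 / l ^ 2 * (η + l ^ 2 / 4 * b k) = 4 / l ^ 2 * η + b k := by
          field_simp
        rw [e5]
        have : 0 ≤ 4 / l ^ 2 * η := by positivity
        linarith) w
      rw [cR_smul, opr_smul] at e4
      change _ ≤ (inner ℂ w (((4 / l ^ 2 : ℝ) : ℂ) • opr (cR t) w) : ℂ).re at e4
      rw [inner_smul_right, Complex.re_ofReal_mul, hw, ward hU v t ht δ, ← hw, ← hge] at e4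
      exact e4
    have e4 : 0 ≤ (inner ℂ w (opr (cR b) w) : ℂ).re := pos_sym b hb w
    have e5 : 0 ≤ (inner ℂ δ (opr (cR (hwt a ha b hb)) δ) : ℂ).re :=
      pos_sym _ (fun k => by
        change 0 ≤ b k / (a + b k) ^ 2
        have := hb k
        positivity) δ
    rw [one_mul] at e1
    exact e1.trans (mul_le_mul e2 e3 e4 (by positivity))
  have h3 : ‖ge U v‖ ^ 2 ≤ 2 * (1 / η * P) + 2 * (1 / (4 * a) * (4 / l ^ 2 * (ge U v).im)) := by
    have e1 := norm_add_le (inner ℂ φ w : ℂ) (inner ℂ (opr (cR (hs' a ha b hb)) δ) w)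
    rw [← hsp, ← hge] at e1
    have e2 := pow_le_pow_left₀ (norm_nonneg _) e1 2
    nlinarith [sq_nonneg (‖(inner ℂ φ w : ℂ)‖ - ‖(inner ℂ (opr (cR (hs' a ha b hb)) δ) w : ℂ)‖)]
  have h4 : (ge U v).im ≤ ‖ge U v‖ := (le_abs_self _).trans (Complex.abs_im_le_norm _)
  have h5 : 2 * (1 / (4 * a) * (4 / l ^ 2 * (ge U v).im)) ≤ ‖ge U v‖ ^ 2 / 2
      + 2 / (a ^ 2 * l ^ 4) := by
    have e1 : 2 * (1 / (4 * a) * (4 / l ^ 2 * (ge U v).im)) = 2 / (a * l ^ 2) * (ge U v).im := by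
      field_simp
    have e2 : 2 / (a * l ^ 2) * (ge U v).im ≤ 2 / (a * l ^ 2) * ‖ge U v‖ :=
      mul_le_mul_of_nonneg_left h4 (by positivity)
    have e3 : 2 / (a ^ 2 * l ^ 4) = (2 / (a * l ^ 2)) ^ 2 / 2 := by
      field_simp
    rw [e1, e3]
    nlinarith [sq_nonneg (‖ge U v‖ - 2 / (a * l ^ 2))]
  have h6 : 4 / (a ^ 2 * l ^ 4) = 2 * (2 / (a ^ 2 * l ^ 4)) := by ring
  have h7 : 4 / η * P = 2 * (2 * (1 / η * P)) := by ring
  rw [h6, h7]
  linarith

end main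

end

end Pool.Agent.V8H97.GK
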