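import Pool.Agent.V8H97.GK.Main

/-!
Generic kinetic energies: the mean of the second moment for the effective medium.
-/

namespace Pool.Agent.V8H97.GK

open MeasureTheory Pool.Agent.W792.LL Pool.Agent.W792.WA Pool.Agent.W19.WAPsi
open Complex (I)

noncomputable section

variable {d : ℕ}

theorem bm_GG {U : C(UnitAddTorus (Fin d), ℂ)} (hU : ‖U‖ < 1) (φ : l2 (Fin d → ℤ)) :
    BM (fun v => GG U v φ) := by
  have h1 := psv_bm Al.csym U hU (φ - opr U φ)
  have h2 := chi_bm Al.csym U hU (φ - opr U φ)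
  exact (h1.sub h2).clm ((I / 2) • (ContinuousLinearMap.id ℂ (l2 (Fin d → ℤ))))

/-- The symbol of the averaged resolvent. -/
def gg (ν : Measure ℝ) [IsProbabilityMeasure ν] (U : C(UnitAddTorus (Fin d), ℂ)) :
    C(UnitAddTorus (Fin d), ℂ) := (I / 2) • ((aa ν U - csym ν U) * (1 - U))

theorem ex_GG (ν : Measure ℝ) [IsProbabilityMeasure ν] {U : C(UnitAddTorus (Fin d), ℂ)}
    (hU : ‖U‖ < 1) (φ : l2 (Fin d → ℤ)) :
    Ex (Pn ν (Fin d → ℤ)) (fun v => GG U v φ) = opr (gg ν U) φ := by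
  set w := φ - opr U φ with hw
  have h1 := ex_psv ν Al.csym U hU w
  have h2 := ex_chi ν Al.csym U hU w
  have i1 : Integrable (psv U w) (Pn ν (Fin d → ℤ)) := (psv_bm Al.csym U hU w).int
  have i2 : Integrable (chi U w) (Pn ν (Fin d → ℤ)) := (chi_bm Al.csym U hU w).int
  have h3 : Ex (Pn ν (Fin d → ℤ)) (fun v => GG U v φ)
      = (I / 2) • (Ex (Pn ν (Fin d → ℤ)) (psv U w) - Ex (Pn ν (Fin d → ℤ)) (chi U w)) := by
    have e0 : Ex (Pn ν (Fin d → ℤ)) (fun v => psv U w v - chi U w v)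
        = Ex (Pn ν (Fin d → ℤ)) (psv U w) - Ex (Pn ν (Fin d → ℤ)) (chi U w) :=
      integral_sub i1 i2
    rw [← e0]
    exact integral_smul (I / 2) (fun v => psv U w v - chi U w v)
  rw [h3, h1, h2]
  unfold gg
  rw [opr_smul, opr_mul, opr_sub, opr_sub, opr_one]
  rfl

theorem mean_inner (ν : Measure ℝ) [IsProbabilityMeasure ν] {U : C(UnitAddTorus (Fin d), ℂ)}
    (hU : ‖U‖ < 1) (φ : l2 (Fin d → ℤ)) :
    ∫ v, (inner ℂ φ (GG U v φ) : ℂ).im ∂(Pn ν (Fin d → ℤ))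
      = (inner ℂ φ (opr (gg ν U) φ) : ℂ).im := by
  rw [← ex_GG ν hU φ]
  have h1 : (inner ℂ φ (Ex (Pn ν (Fin d → ℤ)) (fun v => GG U v φ)) : ℂ)
      = ∫ v, inner ℂ φ (GG U v φ) ∂(Pn ν (Fin d → ℤ)) := (integral_inner (bm_GG hU φ).int φ).symm
  rw [h1]
  exact Complex.imCLM.integral_comp_comm ((BM.const φ).inner (bm_GG hU φ)).int

theorem ge_bm {U : C(UnitAddTorus (Fin d), ℂ)} (hU : ‖U‖ < 1) :
    BM (fun v : (Fin d → ℤ) → ℝ => ge U v) := by
  have h : (fun v : (Fin d → ℤ) → ℝ => ge U v) = fun v => inner ℂ (dl 0) (GG U v (dl 0)) := by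
    funext v
    rw [← GG_ge hU v, coord_inner (0 : Fin d → ℤ) (GG U v (dl 0))]
    rfl
  rw [h]
  exact (BM.const _).inner (bm_GG hU _)

theorem mean_sq (ν : Measure ℝ) [IsProbabilityMeasure ν] {U : C(UnitAddTorus (Fin d), ℂ)}
    (hU : ‖U‖ < 1) {η l a : ℝ} (hη : 0 < η) (hl : 0 < l) (ha : 0 < a)
    (hb : ∀ k, 0 ≤ (gg ν U k).im)
    (ht : ∀ k, 1 - ‖U k‖ ^ 2 = ‖1 - U k‖ ^ 2 * (η + l ^ 2 / 4 * (gg ν U k).im)) :
    ∫ v, ‖ge U v‖ ^ 2 ∂(Pn ν (Fin d → ℤ)) ≤ 4 * a / η + 4 / (a ^ 2 * l ^ 4) := by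
  set b : C(UnitAddTorus (Fin d), ℝ) := ⟨fun k => (gg ν U k).im, by fun_prop⟩ with hbd
  set t : C(UnitAddTorus (Fin d), ℝ) := ⟨fun k => η + l ^ 2 / 4 * (gg ν U k).im, by fun_prop⟩
    with htd
  have hb' : ∀ k, 0 ≤ b k := hb
  have ht' : ∀ k, 1 - ‖U k‖ ^ 2 = ‖1 - U k‖ ^ 2 * t k := ht
  have htb : ∀ k, t k = η + l ^ 2 / 4 * b k := fun k => rfl
  set φ : l2 (Fin d → ℤ) := opr (cR (hs a ha b hb')) (dl 0) with hφ
  have hP : BM (fun v => (inner ℂ φ (GG U v φ) : ℂ)) := (BM.const φ).inner (bm_GG hU φ)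
  have i1 : Integrable (fun v => (inner ℂ φ (GG U v φ) : ℂ).im) (Pn ν (Fin d → ℤ)) :=
    hP.int.im
  have i2 : Integrable (fun v : (Fin d → ℤ) → ℝ => ‖ge U v‖ ^ 2) (Pn ν (Fin d → ℤ)) := by
    obtain ⟨K, hK⟩ := (ge_bm (d := d) hU).nsq.bd
    exact Integrable.of_bound (ge_bm (d := d) hU).nsq.sm.aestronglyMeasurable K
      (Filter.Eventually.of_forall hK)
  have h1 : ∫ v, ‖ge U v‖ ^ 2 ∂(Pn ν (Fin d → ℤ)) ≤
      ∫ v, (4 / η * (inner ℂ φ (GG U v φ) : ℂ).im + 4 / (a ^ 2 * l ^ 4)) ∂(Pn ν (Fin d → ℤ)) :=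
    integral_mono i2 ((i1.const_mul _).add (integrable_const _))
      fun v => main_pt hU v t b ht' hη hl htb hb' ha
  rw [integral_add (i1.const_mul _) (integrable_const _), integral_const_mul,
    mean_inner ν hU φ] at h1
  simp only [integral_const, probReal_univ, one_smul] at h1
  have h2 : (inner ℂ φ (opr (gg ν U) φ) : ℂ).im ≤ a := by
    set h : C(UnitAddTorus (Fin d), ℝ) := hs a ha b hb' with hh
    set c : C(UnitAddTorus (Fin d), ℂ) := star (cR h) * (gg ν U * cR h) with hc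
    have e1 : (inner ℂ φ (opr (gg ν U) φ) : ℂ) = inner ℂ (dl 0) (opr c (dl 0)) := by
      have e2 : opr (gg ν U) φ = opr (gg ν U * cR h) (dl 0) := by
        rw [opr_mul]
        rfl
      rw [e2, hφ]
      exact (Al.symb d).1 (cR h) (gg ν U * cR h) (dl 0) (dl 0)
    have e3 := ((Al.symb d).2.2.1 ((a : ℂ) • (1 : C(UnitAddTorus (Fin d), ℂ)) + I • c)).2 (by
      intro k
      have e4 : ((a : ℂ) • (1 : C(UnitAddTorus (Fin d), ℂ)) + I • c :
          C(UnitAddTorus (Fin d), ℂ)) k = (a : ℂ) + I * (h k : ℂ) ^ 2 * gg ν U k := by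
        change (a : ℂ) * 1 + I * ((starRingEnd ℂ) (cR h k) * (gg ν U k * cR h k)) = _
        rw [cR_apply, Complex.conj_ofReal]
        ring
      rw [e4]
      have e5 : ((a : ℂ) + I * (h k : ℂ) ^ 2 * gg ν U k).re = a - h k ^ 2 * (gg ν U k).im := by
        have : I * (h k : ℂ) ^ 2 * gg ν U k = I * (((h k ^ 2 : ℝ) : ℂ) * gg ν U k) := by
          push_cast; ring
        rw [this]
        simp only [Complex.add_re, Complex.ofReal_re, Complex.mul_re, Complex.I_re, Complex.I_im,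
          Complex.mul_im, Complex.ofReal_im]
        ring
      rw [e5]
      have e6 : h k = a / (a + b k) := rfl
      have e7 : (gg ν U k).im = b k := rfl
      rw [e6, e7]
      have hbk := hb' k
      have e8 : (a / (a + b k)) ^ 2 * b k ≤ a := by
        rw [div_pow, div_mul_eq_mul_div, div_le_iff₀ (by positivity)]
        nlinarith [mul_nonneg ha.le hbk, mul_nonneg (mul_nonneg ha.le hbk) hbk,
          mul_nonneg (mul_nonneg ha.le ha.le) hbk, mul_pos ha (mul_pos ha ha)]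
      linarith) (dl 0)
    rw [opr_add, opr_smul, opr_smul, opr_one] at e3
    change 0 ≤ (inner ℂ (dl 0 : l2 (Fin d → ℤ)) ((a : ℂ) • (dl 0) + I • opr c (dl 0)) : ℂ).re at e3
    rw [inner_add_right, inner_smul_right, inner_smul_right, inn_self, norm_dl0] at e3
    rw [e1]
    simp only [Complex.add_re, Complex.mul_re, Complex.I_re, Complex.I_im, Complex.ofReal_re,
      Complex.ofReal_im] at e3
    linarith
  have h3 : 4 / η * (inner ℂ φ (opr (gg ν U) φ) : ℂ).im ≤ 4 / η * a :=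
    mul_le_mul_of_nonneg_left h2 (by positivity)
  have h4 : 4 / η * a = 4 * a / η := by ring
  linarith

end

end Pool.Agent.V8H97.GK
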