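import Pool.Agent.V8H97.GK.Gen
import Pool.Agent.W792.WA.All4

/-!
Generic kinetic energies: sums of levels meeting countably many open conditions.
-/

namespace Pool.Agent.V8H97.GK

open MeasureTheory Filter Pool.Agent.W792.LL Pool.Agent.W792.WA
open scoped Topology

noncomputable section

/-- One level as a function on the line. -/
def osc (ψ : C(UnitAddCircle, ℝ)) (l : ℝ) (M : ℕ) : C(ℝ, ℝ) :=
  ⟨fun t => l * ψ ((M * t / (2 * Real.pi) : ℝ) : UnitAddCircle), by
    have h : Continuous fun t : ℝ => ((M * t / (2 * Real.pi) : ℝ) : UnitAddCircle) :=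
      (AddCircle.continuous_mk' (1 : ℝ)).comp (by fun_prop)
    exact continuous_const.mul (ψ.continuous.comp h)⟩

theorem osc_le {ψ : C(UnitAddCircle, ℝ)} (hψ : ∀ t, |ψ t| ≤ 1) {l : ℝ} (hl : 0 ≤ l) (M : ℕ)
    (t : ℝ) : |osc ψ l M t| ≤ l := by
  change |l * ψ _| ≤ l
  rw [abs_mul, abs_of_nonneg hl]
  nlinarith [hψ ((M * t / (2 * Real.pi) : ℝ) : UnitAddCircle)]

section nest

variable (ψ : C(UnitAddCircle, ℝ)) (cond : ℕ → Set C(ℝ, ℝ))
  (hopen : ∀ n, ∀ F ∈ cond n, ∃ r : ℝ, 0 < r ∧ ∀ F' : C(ℝ, ℝ), (∀ t, |F' t - F t| ≤ r) →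
    F' ∈ cond n)
  (hdense : ∀ n (F : C(ℝ, ℝ)) (l : ℝ), 0 < l → ∃ M : ℕ, F + osc ψ l M ∈ cond n)

/-- The chosen frequency. -/
def frq (n : ℕ) (F : C(ℝ, ℝ)) (l : ℝ) : ℕ :=
  if h : 0 < l then Classical.choose (hdense n F l h) else 0

/-- The chosen radius. -/
def rad (n : ℕ) (F : C(ℝ, ℝ)) : ℝ :=
  open Classical in if h : F ∈ cond n then Classical.choose (hopen n F h) else 1

/-- The states of the construction. -/
def st (F₀ : C(ℝ, ℝ)) (S : ℝ) : ℕ → C(ℝ, ℝ) × ℝ
  | 0 => (F₀, S)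
  | n + 1 =>
    let p := st F₀ S n
    let F' := p.1 + osc ψ (p.2 / 4) (frq ψ cond hdense n p.1 (p.2 / 4))
    (F', min (p.2 / 2) (rad cond hopen n F'))

include hopen hdense in
theorem nest (hψ : ∀ t, |ψ t| ≤ 1) (F₀ : C(ℝ, ℝ)) {S : ℝ} (hS : 0 < S) :
    ∃ g : C(ℝ, ℝ), IsSum ψ S g ∧ ∀ n, F₀ + g ∈ cond n := by
  classical
  set s : ℕ → C(ℝ, ℝ) × ℝ := st ψ cond hopen hdense F₀ S with hs
  set M : ℕ → ℕ := fun n => frq ψ cond hdense n (s n).1 ((s n).2 / 4) with hM
  have hrec1 : ∀ n, (s (n + 1)).1 = (s n).1 + osc ψ ((s n).2 / 4) (M n) := fun n => rfl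
  have hrec2 : ∀ n, (s (n + 1)).2 = min ((s n).2 / 2) (rad cond hopen n (s (n + 1)).1) :=
    fun n => rfl
  have hradp : ∀ n F, 0 < rad cond hopen n F := by
    intro n F
    unfold rad
    split_ifs with h
    · exact (Classical.choose_spec (hopen n F h)).1
    · exact one_pos
  have hpos : ∀ n, 0 < (s n).2 := by
    intro n
    induction n with
    | zero => exact hS
    | succ n ih =>
      rw [hrec2]
      exact lt_min (by linarith) (hradp _ _)
  have hcond : ∀ n, (s (n + 1)).1 ∈ cond n := by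
    intro n
    rw [hrec1]
    have h : 0 < (s n).2 / 4 := by
      have := hpos n
      linarith
    have e : M n = Classical.choose (hdense n (s n).1 ((s n).2 / 4) h) := by
      simp only [hM, frq, dif_pos h]
    rw [e]
    exact Classical.choose_spec (hdense n (s n).1 ((s n).2 / 4) h)
  have hhalf : ∀ n, (s (n + 1)).2 ≤ (s n).2 / 2 := fun n => by
    rw [hrec2]
    exact min_le_left _ _
  have hrad : ∀ n (F' : C(ℝ, ℝ)), (∀ t, |F' t - (s (n + 1)).1 t| ≤ (s (n + 1)).2) →
      F' ∈ cond n := by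
    intro n F' h
    have h1 := (Classical.choose_spec (hopen n _ (hcond n))).2 F'
    refine h1 fun t => (h t).trans ?_
    rw [hrec2]
    refine (min_le_right _ _).trans (le_of_eq ?_)
    unfold rad
    rw [dif_pos (hcond n)]
  -- the levels
  set l : ℕ → ℝ := fun n => (s n).2 / 4 with hl
  have hl0 : ∀ n, 0 ≤ l n := fun n => by
    have := hpos n
    simp only [hl]
    linarith
  have hgeo : ∀ n j, l (n + j) ≤ (s n).2 / 4 * (1 / 2) ^ j := by
    intro n j
    induction j with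
    | zero => simp [hl]
    | succ j ih =>
      have h1 := hhalf (n + j)
      have h2 : l (n + (j + 1)) ≤ l (n + j) / 2 := by
        simp only [hl]
        rw [← add_assoc]
        linarith
      rw [pow_succ]
      linarith
  have hsumgeo : ∀ n, Summable fun j => (s n).2 / 4 * (1 / 2 : ℝ) ^ j := fun n =>
    (summable_geometric_of_lt_one (by norm_num) (by norm_num)).mul_left _
  have htsumgeo : ∀ n, ∑' j, (s n).2 / 4 * (1 / 2 : ℝ) ^ j = (s n).2 / 2 := by
    intro n
    rw [tsum_mul_left, tsum_geometric_of_lt_one (by norm_num) (by norm_num)]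
    ring
  have hsumn : ∀ n, Summable fun j => l (n + j) := fun n =>
    Summable.of_nonneg_of_le (fun j => hl0 _) (hgeo n) (hsumgeo n)
  have htail : ∀ n, ∑' j, l (n + j) ≤ (s n).2 / 2 := fun n => by
    rw [← htsumgeo n]
    exact (hsumn n).tsum_le_tsum (hgeo n) (hsumgeo n)
  have hsum : Summable l := by
    have := hsumn 0
    simpa using this
  -- the sum
  have hbd : ∀ n t, ‖osc ψ (l n) (M n) t‖ ≤ l n := fun n t => by
    rw [Real.norm_eq_abs]
    exact osc_le hψ (hl0 n) _ t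
  set g : C(ℝ, ℝ) := ⟨fun t => ∑' n, osc ψ (l n) (M n) t,
    continuous_tsum (fun n => (osc ψ (l n) (M n)).continuous) hsum hbd⟩ with hg
  have hst : ∀ t, Summable fun n => osc ψ (l n) (M n) t := fun t =>
    Summable.of_norm_bounded hsum (hbd · t)
  have hpart : ∀ n t, (s n).1 t = F₀ t + ∑ i ∈ Finset.range n, osc ψ (l i) (M i) t := by
    intro n t
    induction n with
    | zero => simp [hs, st]
    | succ n ih =>
      rw [hrec1, Finset.sum_range_succ, ← add_assoc, ← ih]
      rfl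
  refine ⟨g, ⟨l, M, hl0, hsum, ?_, fun t => rfl⟩, fun n => hrad n _ fun t => ?_⟩
  · have := htail 0
    simp only [zero_add] at this
    have h0 : (s 0).2 = S := rfl
    rw [h0] at this
    linarith
  · have h1 : (F₀ + g) t - (s (n + 1)).1 t = ∑' j, osc ψ (l (n + 1 + j)) (M (n + 1 + j)) t := by
      rw [hpart]
      change F₀ t + (∑' n, osc ψ (l n) (M n) t) - _ = _
      have h2 := (hst t).sum_add_tsum_nat_add (n + 1)
      rw [← h2]
      have h3 : ∀ j, osc ψ (l (j + (n + 1))) (M (j + (n + 1))) t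
          = osc ψ (l (n + 1 + j)) (M (n + 1 + j)) t := fun j => by rw [add_comm j]
      simp only [h3]
      ring
    rw [h1]
    have h4 : ‖∑' j, osc ψ (l (n + 1 + j)) (M (n + 1 + j)) t‖ ≤ ∑' j, l (n + 1 + j) :=
      tsum_of_norm_bounded (hsumn (n + 1)).hasSum fun j => hbd _ t
    rw [Real.norm_eq_abs] at h4
    have h5 := htail (n + 1)
    have h6 := hpos (n + 1)
    linarith

end nest

end

end Pool.Agent.V8H97.GK
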