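import Pool.Agent.V8H97.GK.Lim

/-!
Generic kinetic energies: second moment of the Green function for one law, and its dependence on
the law.
-/

namespace Pool.Agent.V8H97.GK

open MeasureTheory Pool.Agent.W792.LL Pool.Agent.W792.WA Pool.Agent.W19.WAPsi
open Complex (I)

noncomputable section

variable {d : ℕ}

theorem zf_le {U : C(UnitAddTorus (Fin d), ℂ)} {q : ℝ} (hq0 : 0 ≤ q) (hq1 : q < 1)
    (hU : ‖U‖ ≤ q) (v : (Fin d → ℤ) → ℝ) : ‖Zf U (fun x => cay (v x))‖ ≤ 1 / (1 - q) :=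
  (Al.zf d U U (fun x => cay (v x)) q hq0 hq1 hU hU fun x => (cay_norm (v x)).le).2.1

theorem one_sub_cay (t : ℝ) : ‖1 - cay t‖ ≤ 2 := by
  calc ‖1 - cay t‖ ≤ ‖(1 : ℂ)‖ + ‖cay t‖ := norm_sub_le _ _
    _ = 2 := by rw [cay_norm, norm_one]; norm_num

theorem half_norm : ‖(1 / (2 * I) : ℂ)‖ = 1 / 2 := by
  rw [norm_div, norm_one, norm_mul, Complex.norm_I, mul_one]
  norm_num

theorem ge_le {U : C(UnitAddTorus (Fin d), ℂ)} {q : ℝ} (hq0 : 0 ≤ q) (hq1 : q < 1)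
    (hU : ‖U‖ ≤ q) (v : (Fin d → ℤ) → ℝ) : ‖ge U v‖ ≤ 1 + 2 / (1 - q) := by
  have h1 := zf_le hq0 hq1 hU v
  have hq : 0 < 1 - q := by linarith
  unfold ge
  rw [norm_mul, half_norm]
  have h2 : ‖(((‖1 - cay (v 0)‖ ^ 2 : ℝ) : ℂ)) * Zf U (fun x => cay (v x))‖ ≤ 4 * (1 / (1 - q)) := by
    rw [norm_mul, Complex.norm_real, Real.norm_of_nonneg (by positivity)]
    have h3 := one_sub_cay (v 0)
    have h4 : ‖1 - cay (v 0)‖ ^ 2 ≤ 4 := by nlinarith [norm_nonneg (1 - cay (v 0))]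
    exact mul_le_mul h4 h1 (norm_nonneg _) (by norm_num)
  have h5 : ‖(1 : ℂ) - (starRingEnd ℂ) (cay (v 0))‖ ≤ 2 := by
    calc ‖(1 : ℂ) - (starRingEnd ℂ) (cay (v 0))‖ ≤ ‖(1 : ℂ)‖ + ‖(starRingEnd ℂ) (cay (v 0))‖ :=
          norm_sub_le _ _
      _ = 2 := by rw [RCLike.norm_conj, cay_norm, norm_one]; norm_num
  have h6 := norm_sub_le ((1 : ℂ) - (starRingEnd ℂ) (cay (v 0)))
    (((‖1 - cay (v 0)‖ ^ 2 : ℝ) : ℂ) * Zf U (fun x => cay (v x)))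
  have h7 : 1 + 2 / (1 - q) = 1 / 2 * (2 + 4 * (1 / (1 - q))) := by ring
  rw [h7]
  exact mul_le_mul_of_nonneg_left (by linarith) (by norm_num)

theorem ge_diff (U U' : C(UnitAddTorus (Fin d), ℂ)) (v : (Fin d → ℤ) → ℝ) :
    ‖ge U v - ge U' v‖ ≤ 2 * ‖Zf U (fun x => cay (v x)) - Zf U' (fun x => cay (v x))‖ := by
  have h1 : ge U v - ge U' v = (1 / (2 * I)) * (((‖1 - cay (v 0)‖ ^ 2 : ℝ) : ℂ) *
      (Zf U' (fun x => cay (v x)) - Zf U (fun x => cay (v x)))) := by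
    unfold ge
    ring
  rw [h1, norm_mul, half_norm, norm_mul, Complex.norm_real, Real.norm_of_nonneg (by positivity),
    norm_sub_rev (Zf U' (fun x => cay (v x)))]
  have h3 := one_sub_cay (v 0)
  have h4 : ‖1 - cay (v 0)‖ ^ 2 ≤ 4 := by nlinarith [norm_nonneg (1 - cay (v 0))]
  nlinarith [norm_nonneg (Zf U (fun x => cay (v x)) - Zf U' (fun x => cay (v x)))]

/-- Dependence on the potential. -/
theorem ge_diff2 {U : C(UnitAddTorus (Fin d), ℂ)} {q : ℝ} (hq0 : 0 ≤ q) (hq1 : q < 1)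
    (hU : ‖U‖ ≤ q) (v v' : (Fin d → ℤ) → ℝ) :
    ‖ge U v - ge U v'‖ ≤ 2 * ‖Zf U (fun x => cay (v x)) - Zf U (fun x => cay (v' x))‖
      + 3 / (1 - q) * ‖cay (v 0) - cay (v' 0)‖ := by
  have hq : 0 < 1 - q := by linarith
  have h1 : ge U v - ge U v' = (1 / (2 * I)) * (((‖1 - cay (v 0)‖ ^ 2 : ℝ) : ℂ) *
      (Zf U (fun x => cay (v' x)) - Zf U (fun x => cay (v x)))
      + ((((‖1 - cay (v' 0)‖ ^ 2 - ‖1 - cay (v 0)‖ ^ 2 : ℝ) : ℂ)) * Zf U (fun x => cay (v' x))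
        - (starRingEnd ℂ) (cay (v 0) - cay (v' 0)))) := by
    unfold ge
    rw [map_sub]
    push_cast
    ring
  have h3 := one_sub_cay (v 0)
  have h3' := one_sub_cay (v' 0)
  have h4 : ‖1 - cay (v 0)‖ ^ 2 ≤ 4 := by nlinarith [norm_nonneg (1 - cay (v 0))]
  have h5 := zf_le hq0 hq1 hU v'
  have h6 : |‖1 - cay (v' 0)‖ - ‖1 - cay (v 0)‖| ≤ ‖cay (v 0) - cay (v' 0)‖ := by
    refine (abs_norm_sub_norm_le _ _).trans (le_of_eq ?_)
    congr 1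
    ring
  have h7 : |‖1 - cay (v' 0)‖ ^ 2 - ‖1 - cay (v 0)‖ ^ 2| ≤ 4 * ‖cay (v 0) - cay (v' 0)‖ := by
    have e : ‖1 - cay (v' 0)‖ ^ 2 - ‖1 - cay (v 0)‖ ^ 2
        = (‖1 - cay (v' 0)‖ - ‖1 - cay (v 0)‖) * (‖1 - cay (v' 0)‖ + ‖1 - cay (v 0)‖) := by ring
    rw [e, abs_mul, abs_of_nonneg (by positivity : 0 ≤ ‖1 - cay (v' 0)‖ + ‖1 - cay (v 0)‖)]
    have : ‖1 - cay (v' 0)‖ + ‖1 - cay (v 0)‖ ≤ 4 := by linarith
    calc _ ≤ ‖cay (v 0) - cay (v' 0)‖ * 4 := mul_le_mul h6 this (by positivity) (norm_nonneg _)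
      _ = _ := by ring
  rw [h1, norm_mul, half_norm]
  have e1 : ‖(((‖1 - cay (v 0)‖ ^ 2 : ℝ) : ℂ)) *
      (Zf U (fun x => cay (v' x)) - Zf U (fun x => cay (v x)))‖
      ≤ 4 * ‖Zf U (fun x => cay (v x)) - Zf U (fun x => cay (v' x))‖ := by
    rw [norm_mul, Complex.norm_real, Real.norm_of_nonneg (by positivity),
      norm_sub_rev (Zf U (fun x => cay (v' x)))]
    exact mul_le_mul_of_nonneg_right h4 (norm_nonneg _)
  have e2 : ‖(((‖1 - cay (v' 0)‖ ^ 2 - ‖1 - cay (v 0)‖ ^ 2 : ℝ) : ℂ)) * Zf U (fun x => cay (v' x))‖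
      ≤ 4 * ‖cay (v 0) - cay (v' 0)‖ * (1 / (1 - q)) := by
    rw [norm_mul, Complex.norm_real]
    exact mul_le_mul h7 h5 (norm_nonneg _) (by positivity)
  have e3 : ‖(starRingEnd ℂ) (cay (v 0) - cay (v' 0))‖ = ‖cay (v 0) - cay (v' 0)‖ :=
    Complex.norm_conj _
  have e4 := norm_add_le (((‖1 - cay (v 0)‖ ^ 2 : ℝ) : ℂ) *
      (Zf U (fun x => cay (v' x)) - Zf U (fun x => cay (v x))))
      ((((‖1 - cay (v' 0)‖ ^ 2 - ‖1 - cay (v 0)‖ ^ 2 : ℝ) : ℂ)) * Zf U (fun x => cay (v' x))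
        - (starRingEnd ℂ) (cay (v 0) - cay (v' 0)))
  have e5 := norm_sub_le ((((‖1 - cay (v' 0)‖ ^ 2 - ‖1 - cay (v 0)‖ ^ 2 : ℝ) : ℂ))
    * Zf U (fun x => cay (v' x))) ((starRingEnd ℂ) (cay (v 0) - cay (v' 0)))
  rw [e3] at e5
  have e6 : 1 ≤ 1 / (1 - q) := by
    rw [le_div_iff₀ hq]
    linarith
  have e7 : ‖cay (v 0) - cay (v' 0)‖ ≤ ‖cay (v 0) - cay (v' 0)‖ * (1 / (1 - q)) :=
    le_mul_of_one_le_right (norm_nonneg _) e6
  have e8 : 3 / (1 - q) * ‖cay (v 0) - cay (v' 0)‖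
      = 3 * (‖cay (v 0) - cay (v' 0)‖ * (1 / (1 - q))) := by ring
  rw [e8]
  nlinarith [norm_nonneg (cay (v 0) - cay (v' 0))]

theorem ge_meas {U : C(UnitAddTorus (Fin d), ℂ)} (hU : ‖U‖ < 1) :
    Measurable fun v : (Fin d → ℤ) → ℝ => ge U v := (ge_bm hU).sm.measurable

/-- One law. -/
theorem one_law {ψ : C(UnitAddCircle, ℝ)} (hψ : IsSemi ψ) (ν : Measure ℝ) [IsProbabilityMeasure ν]
    (hd : 0 < d) (hν : 0 < vr ν) {l a : ℝ} (hl : 0 < l) (ha : 0 < a)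
    (K : C(UnitAddTorus (Fin d), ℝ)) {z : ℂ} (hz : 0 < z.im)
    {q : ℝ} (hq0 : 0 ≤ q) (hq1 : q < 1)
    (hq : ∀ (x : ℂ) (a : ℝ), ‖x‖ ≤ ‖K‖ + ‖z‖ → x.im ≤ -z.im → |a| ≤ l → ‖cayx x a‖ ≤ q)
    {e : ℝ} (he : 0 < e) : ∃ M₀ : ℕ, ∀ M : ℕ, M₀ ≤ M →
      ∫ v, ‖gf (addL ψ K l M) 1 v z‖ ^ 2 ∂(Pn ν (Fin d → ℤ))
        ≤ 2 * (4 * a / z.im + 4 / (a ^ 2 * l ^ 4)) + e := by
  obtain ⟨s, U, hs, hU, hps, heq, hb, ht⟩ := eff hψ ν hν hl K hz hq0 hq1 hq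
  have hq' : 0 < 1 - q := by linarith
  have hW : ‖Wl ψ l K z hz‖ ≤ q := by
    refine (ContinuousMap.norm_le _ hq0).2 fun p => ?_
    change ‖cayx ((K p.1 : ℂ) - z) (l * ψ p.2)‖ ≤ q
    refine hq _ _ ?_ ?_ ?_
    · refine (norm_sub_le _ _).trans ?_
      rw [Complex.norm_real]
      exact add_le_add (K.norm_coe_le_norm _) le_rfl
    · rw [Complex.sub_im, Complex.ofReal_im, zero_sub]
    · rw [abs_mul, abs_of_pos hl]
      nlinarith [hψ.bound p.2]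
  obtain ⟨M₀, hM₀⟩ := Al.c1 ν d hd hν q (Wl ψ l K z hz) s U hq1 hW hU hs hps heq
    (e * (1 - q) / 16) (by positivity)
  refine ⟨M₀, fun M hM => ?_⟩
  obtain ⟨-, h1⟩ := hM₀ M hM
  rw [WM_eq] at h1
  set V := us (Measure.dirac 0) 1 z (addL ψ K l M) with hV
  have hVq : ‖V‖ ≤ q := by
    rw [hV, ← WM_eq ψ l K hz M]
    refine (ContinuousMap.norm_le _ hq0).2 fun k => ?_
    have hc : Continuous fun k : UnitAddTorus (Fin d) =>
        Wl ψ l K z hz (k, ((M * lap d k / (2 * Real.pi) : ℝ) : UnitAddCircle)) := by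
      have h : Continuous fun k : UnitAddTorus (Fin d) =>
          ((M * lap d k / (2 * Real.pi) : ℝ) : UnitAddCircle) :=
        (AddCircle.continuous_mk' (1 : ℝ)).comp (by fun_prop)
      exact (Wl ψ l K z hz).continuous.comp (continuous_id.prodMk h)
    unfold WM
    rw [toC_apply hc]
    exact ((Wl ψ l K z hz).norm_coe_le_norm _).trans hW
  have hU1 : ‖U‖ < 1 := hU.trans_lt hq1
  have hV1 : ‖V‖ < 1 := hVq.trans_lt hq1
  have h2 := mean_sq ν hU1 hz hl ha hb ht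
  set D : ((Fin d → ℤ) → ℝ) → ℝ := fun v =>
    ‖Zf V (fun x => cay (v x)) - Zf U (fun x => cay (v x))‖ with hD
  have hZm : ∀ m : C(UnitAddTorus (Fin d), ℂ), ‖m‖ ≤ q →
      Measurable fun v : (Fin d → ℤ) → ℝ => Zf m (fun x => cay (v x)) :=
    fun m hm => Al.mzp d m q hq1 hm
  have hDm : Measurable D := ((hZm V hVq).sub (hZm U hU)).norm
  have hDb : ∀ v, D v ≤ 2 * (1 / (1 - q)) := by
    intro v
    have e1 := zf_le hq0 hq1 hVq v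
    have e2 := zf_le hq0 hq1 hU v
    exact (norm_sub_le _ _).trans (by linarith)
  have hD0 : ∀ v, 0 ≤ D v := fun v => norm_nonneg _
  have iD : Integrable D (Pn ν (Fin d → ℤ)) :=
    Integrable.of_bound hDm.aestronglyMeasurable (2 * (1 / (1 - q)))
      (Filter.Eventually.of_forall fun v => by
        rw [Real.norm_of_nonneg (hD0 v)]
        exact hDb v)
  have isq : ∀ m : C(UnitAddTorus (Fin d), ℂ), ‖m‖ < 1 →
      Integrable (fun v : (Fin d → ℤ) → ℝ => ‖ge m v‖ ^ 2) (Pn ν (Fin d → ℤ)) := by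
    intro m hm
    obtain ⟨C, hC⟩ := (ge_bm (d := d) hm).nsq.bd
    exact Integrable.of_bound (ge_bm (d := d) hm).nsq.sm.aestronglyMeasurable C
      (Filter.Eventually.of_forall hC)
  have hpt : ∀ v, ‖gf (addL ψ K l M) 1 v z‖ ^ 2 ≤ 2 * ‖ge U v‖ ^ 2 + 16 / (1 - q) * D v := by
    intro v
    rw [gf_ge]
    have e1 := ge_diff V U v
    have e2 : ‖ge V v‖ ≤ ‖ge U v‖ + ‖ge V v - ge U v‖ := by
      have := norm_add_le (ge U v) (ge V v - ge U v)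
      rwa [add_sub_cancel] at this
    have e3 : ‖ge V v - ge U v‖ ^ 2 ≤ 8 / (1 - q) * D v := by
      have e4 : ‖ge V v - ge U v‖ ^ 2 ≤ (2 * D v) ^ 2 :=
        pow_le_pow_left₀ (norm_nonneg _) e1 2
      have e5 : (2 * D v) ^ 2 = 4 * (D v * D v) := by ring
      have e6 : D v * D v ≤ 2 * (1 / (1 - q)) * D v :=
        mul_le_mul_of_nonneg_right (hDb v) (hD0 v)
      have e7 : 8 / (1 - q) * D v = 4 * (2 * (1 / (1 - q)) * D v) := by ring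
      rw [e7]
      linarith
    have e4 : ‖ge V v‖ ^ 2 ≤ 2 * ‖ge U v‖ ^ 2 + 2 * ‖ge V v - ge U v‖ ^ 2 := by
      have e5 := pow_le_pow_left₀ (norm_nonneg _) e2 2
      nlinarith [sq_nonneg (‖ge U v‖ - ‖ge V v - ge U v‖)]
    have e8 : 16 / (1 - q) * D v = 2 * (8 / (1 - q) * D v) := by ring
    rw [e8]
    linarith
  have h3 : ∫ v, ‖gf (addL ψ K l M) 1 v z‖ ^ 2 ∂(Pn ν (Fin d → ℤ))
      ≤ ∫ v, (2 * ‖ge U v‖ ^ 2 + 16 / (1 - q) * D v) ∂(Pn ν (Fin d → ℤ)) := by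
    refine integral_mono ?_ (((isq U hU1).const_mul 2).add (iD.const_mul _)) hpt
    have := isq V hV1
    simpa only [← gf_ge, hV] using this
  rw [integral_add ((isq U hU1).const_mul 2) (iD.const_mul _), integral_const_mul,
    integral_const_mul] at h3
  have h4 : 16 / (1 - q) * ∫ v, D v ∂(Pn ν (Fin d → ℤ)) ≤ e := by
    have e1 := mul_le_mul_of_nonneg_left h1 (by positivity : 0 ≤ 16 / (1 - q))
    have e2 : 16 / (1 - q) * (e * (1 - q) / 16) = e := by field_simp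
    rw [e2] at e1
    exact e1
  linarith

end

end Pool.Agent.V8H97.GK
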