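import Pool.Agent.V8H97.GK.Alg
import Pool.Agent.W792.WA.All2

/-!
Generic kinetic energies: the resolvent of the effective medium.
-/

namespace Pool.Agent.V8H97.GK

open MeasureTheory Pool.Agent.W792.LL Pool.Agent.W792.WA Pool.Agent.W19.WAPsi
open Complex (I)

noncomputable section

/-- A dissipative operator: the bound passes to the adjoint. -/
theorem adj_bound {E : Type} [NormedAddCommGroup E] [InnerProductSpace ℂ E] [CompleteSpace E]
    (G : E →L[ℂ] E) {η : ℝ} (hη : 0 < η) (h : ∀ φ, η * ‖G φ‖ ^ 2 ≤ (inner ℂ φ (G φ) : ℂ).im)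
    (φ : E) : η * ‖ContinuousLinearMap.adjoint G φ‖ ^ 2 ≤ (inner ℂ φ (G φ) : ℂ).im := by
  set c : ℂ := I * ((1 / (2 * η) : ℝ) : ℂ) with hc
  have hcn : ‖c‖ = 1 / (2 * η) := by
    rw [hc, norm_mul, Complex.norm_I, one_mul, Complex.norm_real, Real.norm_of_nonneg (by positivity)]
  set T : E →L[ℂ] E := G - c • (1 : E →L[ℂ] E) with hT
  have e1 : ∀ x : E, ‖T x‖ ^ 2 ≤ (1 / (2 * η)) ^ 2 * ‖x‖ ^ 2 := by
    intro x
    have h1 : T x = G x - c • x := rfl
    rw [h1, @norm_sub_sq ℂ, norm_smul, hcn, inner_smul_right]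
    have h2 : (inner ℂ (G x) x : ℂ) = (starRingEnd ℂ) (inner ℂ x (G x)) :=
      (inner_conj_symm _ _).symm
    rw [h2]
    have h3 : (RCLike.re (c * (starRingEnd ℂ) (inner ℂ x (G x) : ℂ)) : ℝ)
        = 1 / (2 * η) * (inner ℂ x (G x) : ℂ).im := by
      change (c * (starRingEnd ℂ) (inner ℂ x (G x) : ℂ)).re = _
      simp only [hc, Complex.mul_re, Complex.mul_im, Complex.I_re, Complex.I_im,
        Complex.ofReal_re, Complex.ofReal_im, Complex.conj_re, Complex.conj_im]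
      ring
    rw [h3]
    have h4 := h x
    have h5 : ‖G x‖ ^ 2 ≤ 2 * (1 / (2 * η) * (inner ℂ x (G x) : ℂ).im) := by
      have e : 2 * (1 / (2 * η) * (inner ℂ x (G x) : ℂ).im) = (inner ℂ x (G x) : ℂ).im / η := by
        field_simp
      rw [e, le_div_iff₀ hη]
      linarith
    rw [mul_pow]
    linarith
  have e2 : ‖T‖ ≤ 1 / (2 * η) := by
    refine T.opNorm_le_bound (by positivity) fun x => ?_
    have := e1 x
    rw [← mul_pow] at this
    exact (pow_le_pow_iff_left₀ (norm_nonneg _) (by positivity) two_ne_zero).1 this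
  have e3 : ContinuousLinearMap.adjoint T φ = ContinuousLinearMap.adjoint G φ + c • φ := by
    have h1 : ContinuousLinearMap.adjoint T = ContinuousLinearMap.adjoint G
        - (starRingEnd ℂ) c • ContinuousLinearMap.adjoint (1 : E →L[ℂ] E) := by
      rw [hT, map_sub, map_smulₛₗ]
    have h2 : ContinuousLinearMap.adjoint (1 : E →L[ℂ] E) = 1 :=
      (ContinuousLinearMap.star_eq_adjoint (1 : E →L[ℂ] E)).symm.trans (star_one _)
    have h3 : (starRingEnd ℂ) c = -c := by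
      rw [hc, map_mul, Complex.conj_I, Complex.conj_ofReal]
      ring
    rw [h1, h2, h3]
    simp
  have e4 : ‖ContinuousLinearMap.adjoint T φ‖ ≤ 1 / (2 * η) * ‖φ‖ := by
    refine (ContinuousLinearMap.le_opNorm _ _).trans ?_
    have : ‖ContinuousLinearMap.adjoint T‖ = ‖T‖ := LinearIsometryEquiv.norm_map _ _
    rw [this]
    exact mul_le_mul_of_nonneg_right e2 (norm_nonneg _)
  have e5 := pow_le_pow_left₀ (norm_nonneg _) e4 2
  rw [e3, @norm_add_sq ℂ, norm_smul, hcn, inner_smul_right,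
    ContinuousLinearMap.adjoint_inner_left] at e5
  have h3 : (RCLike.re (c * (inner ℂ φ (G φ) : ℂ)) : ℝ)
      = -(1 / (2 * η) * (inner ℂ φ (G φ) : ℂ).im) := by
    change (c * (inner ℂ φ (G φ) : ℂ)).re = _
    simp only [hc, Complex.mul_re, Complex.mul_im, Complex.I_re, Complex.I_im,
      Complex.ofReal_re, Complex.ofReal_im]
    ring
  rw [h3] at e5
  have h6 : ‖ContinuousLinearMap.adjoint G φ‖ ^ 2 ≤ (inner ℂ φ (G φ) : ℂ).im / η := by
    have e : 2 * (1 / (2 * η) * (inner ℂ φ (G φ) : ℂ).im) = (inner ℂ φ (G φ) : ℂ).im / η := by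
      field_simp
    linarith
  rw [le_div_iff₀ hη] at h6
  linarith

variable {d : ℕ}

/-- The resolvent of the effective medium. -/
def GG (U : C(UnitAddTorus (Fin d), ℂ)) (v : (Fin d → ℤ) → ℝ) :
    l2 (Fin d → ℤ) →L[ℂ] l2 (Fin d → ℤ) :=
  (I / 2) • ((1 - dc v) * rsv U v * (1 - opr U))

/-- Its diagonal element at the origin. -/
def ge (U : C(UnitAddTorus (Fin d), ℂ)) (v : (Fin d → ℤ) → ℝ) : ℂ :=
  (1 / (2 * I)) * (1 - (starRingEnd ℂ) (cay (v 0))
    - (‖1 - cay (v 0)‖ ^ 2 : ℝ) * Zf U (fun x => cay (v x)))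

theorem gf_ge (K : C(UnitAddTorus (Fin d), ℝ)) (v : (Fin d → ℤ) → ℝ) (z : ℂ) :
    gf K 1 v z = ge (us (Measure.dirac 0) 1 z K) v := by
  unfold gf ge
  simp

theorem GG_apply (U : C(UnitAddTorus (Fin d), ℂ)) (v : (Fin d → ℤ) → ℝ) (φ : l2 (Fin d → ℤ)) :
    GG U v φ = (I / 2) • (rsv U v (φ - opr U φ) - dc v (rsv U v (φ - opr U φ))) := rfl

theorem rsv_eq {U : C(UnitAddTorus (Fin d), ℂ)} (hU : ‖U‖ < 1) (v : (Fin d → ℤ) → ℝ)
    (u : l2 (Fin d → ℤ)) : rsv U v u = u + opr U (dc v (rsv U v u)) :=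
  psv_eq Al.csym U hU u v

theorem rsv_eq' {U : C(UnitAddTorus (Fin d), ℂ)} (hU : ‖U‖ < 1) (v : (Fin d → ℤ) → ℝ)
    (u : l2 (Fin d → ℤ)) : rsv U v (opr U (dc v u)) = rsv U v u - u := by
  have h := ((Al.csym (Measure.dirac 0) d U hU).1 v).2.2
  have h2 : (rsv U v * (1 - opr U * dc v)) u = u := by
    rw [h]
    rfl
  have h3 : rsv U v (u - opr U (dc v u)) = u := h2
  rw [map_sub] at h3
  rw [sub_eq_iff_eq_add] at h3
  rw [h3]
  abel

theorem coe_sub_apply (a b : l2 (Fin d → ℤ)) (x : Fin d → ℤ) : (a - b) x = a x - b x := by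
  rw [lp.coeFn_sub, Pi.sub_apply]

theorem coe_smul_apply (c : ℂ) (b : l2 (Fin d → ℤ)) (x : Fin d → ℤ) : (c • b) x = c * b x := by
  rw [lp.coeFn_smul, Pi.smul_apply, smul_eq_mul]

theorem dl_apply (x : Fin d → ℤ) : (dl (0 : Fin d → ℤ)) x = if x = 0 then 1 else 0 := by
  unfold dl
  rw [lp.single_apply]
  by_cases h : x = 0
  · subst h; simp
  · simp [h]

theorem dc_dl (v : (Fin d → ℤ) → ℝ) : dc v (dl 0) = cay (v 0) • dl 0 := by
  ext x
  rw [dc_apply, coe_smul_apply, dl_apply]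
  by_cases h : x = 0
  · subst h; rfl
  · simp [h]

theorem GG_ge {U : C(UnitAddTorus (Fin d), ℂ)} (hU : ‖U‖ < 1) (v : (Fin d → ℤ) → ℝ) :
    GG U v (dl 0) 0 = ge U v := by
  have hcn : ‖cay (v 0)‖ = 1 := cay_norm _
  have hcc : cay (v 0) * (starRingEnd ℂ) (cay (v 0)) = 1 := by
    rw [Complex.mul_conj', hcn]
    simp
  have h1 := rsv_eq' hU v (dl 0)
  rw [dc_dl, map_smul, map_smul] at h1
  have h2 : cay (v 0) * (rsv U v (opr U (dl 0))) 0 = Zf U (fun x => cay (v x)) - 1 := by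
    have h3 := congrArg (fun w : l2 (Fin d → ℤ) => w 0) h1
    simp only at h3
    rw [coe_smul_apply, coe_sub_apply, dl_apply, if_pos rfl] at h3
    exact h3
  have h4 : (rsv U v (dl 0)) 0 = Zf U (fun x => cay (v x)) := rfl
  rw [GG_apply, coe_smul_apply, coe_sub_apply, dc_apply, map_sub, coe_sub_apply, h4]
  have h5 : (rsv U v (opr U (dl 0))) 0
      = (starRingEnd ℂ) (cay (v 0)) * (Zf U (fun x => cay (v x)) - 1) := by
    rw [← h2]
    linear_combination (-(rsv U v (opr U (dl 0))) 0) * hcc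
  rw [h5]
  have hn2 : ((‖1 - cay (v 0)‖ ^ 2 : ℝ) : ℂ) = 2 - cay (v 0) - (starRingEnd ℂ) (cay (v 0)) := by
    rw [(Al.cay.2.2.1 (v 0)).2]
    have h6 := Complex.add_conj (cay (v 0))
    push_cast at h6 ⊢
    linear_combination h6
  unfold ge
  rw [hn2]
  set c := cay (v 0)
  set Z := Zf U (fun x => cay (v x))
  have hI : I ≠ 0 := Complex.I_ne_zero
  have hI2 : I ^ 2 = -1 := Complex.I_sq
  have e1 : (1 / (2 * I) : ℂ) = -(I / 2) := by
    field_simp
    linear_combination hI2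
  rw [e1]
  linear_combination (-(I / 2) * (1 - Z)) * hcc

/-- The Ward identity. -/
theorem ward {U : C(UnitAddTorus (Fin d), ℂ)} (hU : ‖U‖ < 1) (v : (Fin d → ℤ) → ℝ)
    (t : C(UnitAddTorus (Fin d), ℝ)) (ht : ∀ k, 1 - ‖U k‖ ^ 2 = ‖1 - U k‖ ^ 2 * t k)
    (φ : l2 (Fin d → ℤ)) :
    (inner ℂ (GG U v φ) (opr (cR t) (GG U v φ)) : ℂ).re = (inner ℂ φ (GG U v φ) : ℂ).im := by
  have hin := (Al.symb d).1
  set y := rsv U v (φ - opr U φ) with hy
  set b := dc v y - φ with hb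
  have hyb : y - φ = opr U b := by
    have h := rsv_eq hU v (φ - opr U φ)
    rw [← hy] at h
    rw [hb, map_sub]
    rw [sub_eq_iff_eq_add]
    conv_lhs => rw [h]
    abel
  have hG : GG U v φ = (I / 2) • (y - dc v y) := GG_apply U v φ
  have hG2 : GG U v φ = (-(I / 2)) • opr (1 - U) b := by
    rw [hG, opr_sub, opr_one]
    change _ = (-(I / 2)) • (b - opr U b)
    rw [← hyb, hb, neg_smul, ← smul_neg]
    congr 1
    abel
  have h1 : (inner ℂ (GG U v φ) (opr (cR t) (GG U v φ)) : ℂ)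
      = (1 / 4 : ℂ) * inner ℂ b (opr (cR (gm U)) b) := by
    rw [hG2, map_smul, inner_smul_left, inner_smul_right, ← ContinuousLinearMap.mul_apply,
      ← opr_mul, hin]
    have e1 : star (1 - U) * (cR t * (1 - U)) = cR (gm U) := by
      ext k
      have h2 : (star (1 - U) * (cR t * (1 - U)) : C(UnitAddTorus (Fin d), ℂ)) k
          = (starRingEnd ℂ) (1 - U k) * (cR t k * (1 - U k)) := rfl
      rw [h2, cR_apply, cR_apply]
      have h3 : gm U k = 1 - ‖U k‖ ^ 2 := rfl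
      rw [h3, ht k]
      push_cast
      rw [← Complex.conj_mul']
      ring
    rw [e1]
    have e2 : (starRingEnd ℂ) (-(I / 2)) * (-(I / 2)) = 1 / 4 := by
      simp only [map_neg, map_div₀, Complex.conj_I, map_ofNat]
      have hI2 : I ^ 2 = -1 := Complex.I_sq
      linear_combination (-(1 : ℂ) / 4) * hI2
    rw [← mul_assoc, e2]
  have h2 : (inner ℂ b (opr (cR (gm U)) b) : ℂ).re = ‖b‖ ^ 2 - ‖opr U b‖ ^ 2 :=
    (gm_pt Al.symb U hU.le b).1
  have h3 : ‖b‖ ^ 2 - ‖opr U b‖ ^ 2 = 4 * (inner ℂ φ (GG U v φ) : ℂ).im := by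
    rw [← hyb, hb, @norm_sub_sq ℂ, @norm_sub_sq ℂ, dc_norm]
    rw [hG, inner_smul_right, inner_sub_right]
    have e1 : (inner ℂ y φ : ℂ) = (starRingEnd ℂ) (inner ℂ φ y) := (inner_conj_symm _ _).symm
    have e2 : (inner ℂ (dc v y) φ : ℂ) = (starRingEnd ℂ) (inner ℂ φ (dc v y)) :=
      (inner_conj_symm _ _).symm
    rw [e1, e2]
    change ‖y‖ ^ 2 - 2 * ((starRingEnd ℂ) (inner ℂ φ (dc v y) : ℂ)).re + ‖φ‖ ^ 2
      - (‖y‖ ^ 2 - 2 * ((starRingEnd ℂ) (inner ℂ φ y : ℂ)).re + ‖φ‖ ^ 2) = _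
    have e3 : ((I / 2) * ((inner ℂ φ y : ℂ) - inner ℂ φ (dc v y))).im
        = 1 / 2 * ((inner ℂ φ y : ℂ).re - (inner ℂ φ (dc v y) : ℂ).re) := by
      have : (I / 2 : ℂ) = I * ((1 / 2 : ℝ) : ℂ) := by push_cast; ring
      rw [this]
      simp only [Complex.mul_im, Complex.mul_re, Complex.I_re, Complex.I_im, Complex.ofReal_re,
        Complex.ofReal_im, Complex.sub_re, Complex.sub_im]
      ring
    rw [e3, Complex.conj_re, Complex.conj_re]
    ring
  rw [h1]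
  have e4 : (1 / 4 : ℂ) = ((1 / 4 : ℝ) : ℂ) := by push_cast; ring
  rw [e4, Complex.re_ofReal_mul, h2, h3]
  ring

end

end Pool.Agent.V8H97.GK
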