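import Pool.Agent.V8H97.GK.One

/-!
Generic kinetic energies: second moment of the Green function, uniformly in the law.
-/

namespace Pool.Agent.V8H97.GK

open MeasureTheory Pool.Agent.W792.LL Pool.Agent.W792.WA Pool.Agent.W19.WAPsi
open Pool.Agent.W304.WA.Zfw

noncomputable section

variable {d : ℕ}

theorem cay2 (s t : ℝ) : ‖cay s - cay t‖ ≤ 2 := by
  calc ‖cay s - cay t‖ ≤ ‖cay s‖ + ‖cay t‖ := norm_sub_le _ _
    _ = 2 := by rw [cay_norm, cay_norm]; norm_num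

theorem cd_int (X Y : MX) :
    Integrable (fun u : ℝ => ‖cay (X.1 u) - cay (Y.1 u)‖ ^ 2)
      (volume.restrict (Set.Ioc (0 : ℝ) 1)) := by
  have hm : Measurable fun t : ℝ => ‖cay (X.1 t) - cay (Y.1 t)‖ ^ 2 :=
    (((meas_cay.comp X.2).sub (meas_cay.comp Y.2)).norm).pow_const 2
  refine Integrable.of_bound hm.aestronglyMeasurable 4 (Filter.Eventually.of_forall fun u => ?_)
  rw [Real.norm_of_nonneg (by positivity)]
  nlinarith [cay2 (X.1 u) (Y.1 u), norm_nonneg (cay (X.1 u) - cay (Y.1 u))]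

theorem cd_symm (X Y : MX) : cd X Y = cd Y X := by
  unfold cd
  simp only [norm_sub_rev]

theorem cd_tri (X Y Z : MX) : cd X Z ≤ 2 * cd X Y + 2 * cd Y Z := by
  unfold cd
  rw [← integral_const_mul, ← integral_const_mul,
    ← integral_add ((cd_int X Y).const_mul 2) ((cd_int Y Z).const_mul 2)]
  refine integral_mono (cd_int X Z) (((cd_int X Y).const_mul 2).add ((cd_int Y Z).const_mul 2))
    fun u => ?_
  change ‖cay (X.1 u) - cay (Z.1 u)‖ ^ 2 ≤ 2 * ‖cay (X.1 u) - cay (Y.1 u)‖ ^ 2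
    + 2 * ‖cay (Y.1 u) - cay (Z.1 u)‖ ^ 2
  have h1 : ‖cay (X.1 u) - cay (Z.1 u)‖ ≤ ‖cay (X.1 u) - cay (Y.1 u)‖
      + ‖cay (Y.1 u) - cay (Z.1 u)‖ := norm_sub_le_norm_sub_add_norm_sub _ _ _
  have h2 := pow_le_pow_left₀ (norm_nonneg _) h1 2
  nlinarith [sq_nonneg (‖cay (X.1 u) - cay (Y.1 u)‖ - ‖cay (Y.1 u) - cay (Z.1 u)‖)]

/-- A net inside the set. -/
theorem net (𝓧 : Set MX) (h𝓧 : 𝓧 ⊆ Qf) {τ : ℝ} (hτ : 0 < τ) :
    ∃ F : Finset MX, (∀ Y ∈ F, Y ∈ 𝓧) ∧ ∀ X ∈ 𝓧, ∃ Y ∈ F, cd X Y ≤ τ ^ 2 := by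
  classical
  obtain ⟨F, hF, hF2⟩ := Al.netx2 (τ / 2) (by positivity)
  set F1 : Finset MX := hF.toFinset with hF1
  set g : MX → Option MX := fun Y =>
    if h : ∃ X ∈ 𝓧, cd X Y ≤ (τ / 2) ^ 2 then some (Classical.choose h) else none with hg
  refine ⟨F1.biUnion fun Y => (g Y).toFinset, fun Y hY => ?_, fun X hX => ?_⟩
  · rw [Finset.mem_biUnion] at hY
    obtain ⟨Z, hZ, hYZ⟩ := hY
    rw [Option.mem_toFinset, Option.mem_def] at hYZ
    by_cases h : ∃ X ∈ 𝓧, cd X Z ≤ (τ / 2) ^ 2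
    · simp only [hg, dif_pos h, Option.some.injEq] at hYZ
      rw [← hYZ]
      exact (Classical.choose_spec h).1
    · simp only [hg, dif_neg h] at hYZ
      exact absurd hYZ (by simp)
  · obtain ⟨Z, hZ, hXZ⟩ := hF2 X (h𝓧 hX)
    have h : ∃ X ∈ 𝓧, cd X Z ≤ (τ / 2) ^ 2 := ⟨X, hX, hXZ⟩
    refine ⟨Classical.choose h, ?_, ?_⟩
    · rw [Finset.mem_biUnion]
      refine ⟨Z, by rw [hF1, Set.Finite.mem_toFinset]; exact hZ, ?_⟩
      rw [Option.mem_toFinset, Option.mem_def]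
      simp only [hg, dif_pos h]
    · have h1 := (Classical.choose_spec h).2
      have h2 := cd_tri X Z (Classical.choose h)
      rw [cd_symm Z] at h2
      nlinarith

theorem site_diff (X Y : MX) {τ : ℝ} (hτ : 0 < τ) (hcd : cd X Y ≤ τ ^ 2) :
    ∫ u, ‖cay (X.1 (u 0)) - cay (Y.1 (u 0))‖ ∂(PP (Fin d → ℤ)) ≤ τ := by
  have hm : Measurable fun t : ℝ => ‖cay (X.1 t) - cay (Y.1 t)‖ :=
    ((meas_cay.comp X.2).sub (meas_cay.comp Y.2)).norm
  have h1 : MeasurePreserving (fun u : (Fin d → ℤ) → ℝ => u 0) (PP (Fin d → ℤ)) lb :=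
    measurePreserving_eval_infinitePi (fun _ : Fin d → ℤ => lb) 0
  have h2 : ∫ u, ‖cay (X.1 (u 0)) - cay (Y.1 (u 0))‖ ∂(PP (Fin d → ℤ))
      = ∫ t, ‖cay (X.1 t) - cay (Y.1 t)‖ ∂lb := by
    rw [← h1.map_eq]
    exact (integral_map h1.measurable.aemeasurable hm.aestronglyMeasurable).symm
  rw [h2]
  have i1 : Integrable (fun t : ℝ => ‖cay (X.1 t) - cay (Y.1 t)‖) lb := by
    refine Integrable.of_bound hm.aestronglyMeasurable 2 (Filter.Eventually.of_forall fun u => ?_)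
    rw [norm_norm]
    exact cay2 _ _
  have h3 : ∫ t, ‖cay (X.1 t) - cay (Y.1 t)‖ ∂lb
      ≤ ∫ t, (‖cay (X.1 t) - cay (Y.1 t)‖ ^ 2 / (2 * τ) + τ / 2) ∂lb := by
    refine integral_mono i1 (((cd_int X Y).div_const _).add (integrable_const _)) fun t => ?_
    change ‖cay (X.1 t) - cay (Y.1 t)‖ ≤ ‖cay (X.1 t) - cay (Y.1 t)‖ ^ 2 / (2 * τ) + τ / 2
    have e1 : ‖cay (X.1 t) - cay (Y.1 t)‖ ^ 2 / (2 * τ) + τ / 2 - ‖cay (X.1 t) - cay (Y.1 t)‖
        = (‖cay (X.1 t) - cay (Y.1 t)‖ - τ) ^ 2 / (2 * τ) := by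
      field_simp
      ring
    have e2 : 0 ≤ (‖cay (X.1 t) - cay (Y.1 t)‖ - τ) ^ 2 / (2 * τ) := by positivity
    linarith
  have h4 : ∫ t, (‖cay (X.1 t) - cay (Y.1 t)‖ ^ 2 / (2 * τ) + τ / 2) ∂lb
      = cd X Y / (2 * τ) + τ / 2 := by
    have := integral_add (μ := lb) ((cd_int X Y).div_const (2 * τ)) (integrable_const (τ / 2))
    rw [this, integral_div]
    simp [cd, lb]
  rw [h4] at h3
  have h5 : cd X Y / (2 * τ) ≤ τ / 2 := by
    rw [div_le_iff₀ (by positivity)]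
    nlinarith
  linarith

/-- Transfer of the second moment between laws. -/
theorem transfer {U : C(UnitAddTorus (Fin d), ℂ)} {q : ℝ} (hq0 : 0 ≤ q) (hq1 : q < 1)
    (hU : ‖U‖ ≤ q) (X Y : MX) {τ : ℝ} (hτ : 0 < τ) (hcd : cd X Y ≤ τ ^ 2) :
    ∫ v, ‖ge U v‖ ^ 2 ∂(Pn (qlaw X) (Fin d → ℤ)) ≤ ∫ v, ‖ge U v‖ ^ 2 ∂(Pn (qlaw Y) (Fin d → ℤ))
      + 2 * (1 + 2 / (1 - q)) * (2 * (((1 + q) / (1 - q)) ^ 2 / (1 - q) ^ 2) + 3 / (1 - q)) * τ := by
  have hq : 0 < 1 - q := by linarith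
  have hU1 : ‖U‖ < 1 := hU.trans_lt hq1
  have hm : Measurable fun v : (Fin d → ℤ) → ℝ => ge U v := ge_meas hU1
  have hZm : Measurable fun v : (Fin d → ℤ) → ℝ => Zf U (fun x => cay (v x)) :=
    Al.mzp d U q hq1 hU
  have key : ∀ Z : MX, ∫ v, ‖ge U v‖ ^ 2 ∂(Pn (qlaw Z) (Fin d → ℤ))
      = ∫ u, ‖ge U (fun x => Z.1 (u x))‖ ^ 2 ∂(PP (Fin d → ℤ)) := by
    intro Z
    rw [Pn_qlaw]
    exact integral_map (μ := PP (Fin d → ℤ)) (meas_comp Z _).aemeasurable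
      ((hm.norm).pow_const 2).aestronglyMeasurable
  rw [key X, key Y]
  set B : ℝ := 1 + 2 / (1 - q) with hB
  have hB0 : 0 < B := by positivity
  have i1 : ∀ Z : MX, Integrable (fun u : (Fin d → ℤ) → ℝ => ‖ge U (fun x => Z.1 (u x))‖ ^ 2)
      (PP (Fin d → ℤ)) := by
    intro Z
    refine Integrable.of_bound (((hm.comp (meas_comp Z _)).norm).pow_const 2).aestronglyMeasurable
      (B ^ 2) (Filter.Eventually.of_forall fun u => ?_)
    rw [Real.norm_of_nonneg (by positivity)]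
    exact pow_le_pow_left₀ (norm_nonneg _) (ge_le hq0 hq1 hU _) 2
  set D1 : ((Fin d → ℤ) → ℝ) → ℝ := fun u =>
    ‖Zf U (fun x => cay (X.1 (u x))) - Zf U (fun x => cay (Y.1 (u x)))‖ with hD1
  set D2 : ((Fin d → ℤ) → ℝ) → ℝ := fun u => ‖cay (X.1 (u 0)) - cay (Y.1 (u 0))‖ with hD2
  have hb1 : ∀ u, D1 u ≤ 2 * (1 / (1 - q)) := by
    intro u
    have e1 := zf_le hq0 hq1 hU (fun x => X.1 (u x))
    have e2 := zf_le hq0 hq1 hU (fun x => Y.1 (u x))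
    exact (norm_sub_le _ _).trans (by linarith)
  have hm1' : Measurable fun u : (Fin d → ℤ) → ℝ =>
      Zf U (fun x => cay (X.1 (u x))) - Zf U (fun x => cay (Y.1 (u x))) :=
    (hZm.comp (meas_comp X _)).sub (hZm.comp (meas_comp Y _))
  have hm1 : Measurable D1 := hm1'.norm
  have hm2 : Measurable D2 :=
    ((meas_cay.comp (X.2.comp (measurable_pi_apply 0))).sub
      (meas_cay.comp (Y.2.comp (measurable_pi_apply 0)))).norm
  have iD1 : Integrable D1 (PP (Fin d → ℤ)) :=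
    Integrable.of_bound hm1.aestronglyMeasurable _ (Filter.Eventually.of_forall fun u => by
      rw [Real.norm_of_nonneg (norm_nonneg _)]
      exact hb1 u)
  have iD2 : Integrable D2 (PP (Fin d → ℤ)) :=
    Integrable.of_bound hm2.aestronglyMeasurable 2 (Filter.Eventually.of_forall fun u => by
      rw [Real.norm_of_nonneg (norm_nonneg _)]
      exact cay2 _ _)
  have hpt : ∀ u : (Fin d → ℤ) → ℝ, ‖ge U (fun x => X.1 (u x))‖ ^ 2 ≤
      ‖ge U (fun x => Y.1 (u x))‖ ^ 2 + (2 * B * 2 * D1 u + 2 * B * (3 / (1 - q)) * D2 u) := by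
    intro u
    have e1 := ge_diff2 hq0 hq1 hU (fun x => X.1 (u x)) (fun x => Y.1 (u x))
    have e2 := ge_le hq0 hq1 hU (fun x => X.1 (u x))
    have e3 := ge_le hq0 hq1 hU (fun x => Y.1 (u x))
    have e4 : ‖ge U (fun x => X.1 (u x))‖ ≤ ‖ge U (fun x => Y.1 (u x))‖
        + ‖ge U (fun x => X.1 (u x)) - ge U (fun x => Y.1 (u x))‖ := by
      have := norm_add_le (ge U (fun x => Y.1 (u x)))
        (ge U (fun x => X.1 (u x)) - ge U (fun x => Y.1 (u x)))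
      rwa [add_sub_cancel] at this
    have e5 : ‖ge U (fun x => X.1 (u x))‖ ^ 2 - ‖ge U (fun x => Y.1 (u x))‖ ^ 2
        ≤ 2 * B * ‖ge U (fun x => X.1 (u x)) - ge U (fun x => Y.1 (u x))‖ := by
      have n1 := norm_nonneg (ge U (fun x => X.1 (u x)))
      have n2 := norm_nonneg (ge U (fun x => Y.1 (u x)))
      have n3 := norm_nonneg (ge U (fun x => X.1 (u x)) - ge U (fun x => Y.1 (u x)))
      nlinarith
    have e6 : 2 * B * ‖ge U (fun x => X.1 (u x)) - ge U (fun x => Y.1 (u x))‖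
        ≤ 2 * B * (2 * D1 u + 3 / (1 - q) * D2 u) :=
      mul_le_mul_of_nonneg_left e1 (by positivity)
    have e7 : 2 * B * (2 * D1 u + 3 / (1 - q) * D2 u)
        = 2 * B * 2 * D1 u + 2 * B * (3 / (1 - q)) * D2 u := by ring
    linarith
  have iD : Integrable (fun u => 2 * B * 2 * D1 u + 2 * B * (3 / (1 - q)) * D2 u)
      (PP (Fin d → ℤ)) := (iD1.const_mul _).add (iD2.const_mul _)
  have h1 := integral_mono (i1 X) ((i1 Y).add iD) hpt
  have h2 : ∫ u, ((fun u : (Fin d → ℤ) → ℝ => ‖ge U (fun x => Y.1 (u x))‖ ^ 2)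
      + (fun u => 2 * B * 2 * D1 u + 2 * B * (3 / (1 - q)) * D2 u)) u ∂(PP (Fin d → ℤ))
      = ∫ u, ‖ge U (fun x => Y.1 (u x))‖ ^ 2 ∂(PP (Fin d → ℤ))
        + (2 * B * 2 * ∫ u, D1 u ∂(PP (Fin d → ℤ))
          + 2 * B * (3 / (1 - q)) * ∫ u, D2 u ∂(PP (Fin d → ℤ))) := by
    have e1 := integral_add (μ := PP (Fin d → ℤ)) (i1 Y) iD
    have e2 := integral_add (μ := PP (Fin d → ℤ)) (iD1.const_mul (2 * B * 2))
      (iD2.const_mul (2 * B * (3 / (1 - q))))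
    rw [integral_const_mul, integral_const_mul] at e2
    rw [← e2]
    exact e1
  have h1' := h1.trans h2.le
  have h3 := mean_diff Al.csym Al.opr Al.dia Al.cay hq0 hq1 X Y τ hτ.le hcd U hU hm1' _ hb1
  have h4 := site_diff (d := d) X Y hτ hcd
  have h5 : 2 * B * 2 * ∫ u, D1 u ∂(PP (Fin d → ℤ))
      ≤ 2 * B * 2 * (((1 + q) / (1 - q)) ^ 2 / (1 - q) ^ 2 * τ) :=
    mul_le_mul_of_nonneg_left h3 (by positivity)
  have h6 : 2 * B * (3 / (1 - q)) * ∫ u, D2 u ∂(PP (Fin d → ℤ)) ≤ 2 * B * (3 / (1 - q)) * τ :=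
    mul_le_mul_of_nonneg_left h4 (by positivity)
  have h7 : 2 * B * (2 * (((1 + q) / (1 - q)) ^ 2 / (1 - q) ^ 2) + 3 / (1 - q)) * τ
      = 2 * B * 2 * (((1 + q) / (1 - q)) ^ 2 / (1 - q) ^ 2 * τ) + 2 * B * (3 / (1 - q)) * τ := by
    ring
  rw [h7]
  linarith

end

end Pool.Agent.V8H97.GK
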