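import Pool.Agent.V8H97.GK.Unif

/-!
Generic kinetic energies: one fast oscillating level makes the Green function small on a window of
energies, uniformly in the law.
-/

namespace Pool.Agent.V8H97.GK

open MeasureTheory Pool.Agent.W792.LL Pool.Agent.W792.WA Pool.Agent.W19.WAPsi
open Pool.Agent.W304.WA.Zfw

noncomputable section

variable {d : ℕ}

/-- Norm of the symbol of the perturbed kinetic energy. -/
theorem us_q {ψ : C(UnitAddCircle, ℝ)} (hψ : IsSemi ψ) {l : ℝ} (hl : 0 < l)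
    (K : C(UnitAddTorus (Fin d), ℝ)) {z : ℂ} (hz : 0 < z.im) {q : ℝ} (hq0 : 0 ≤ q)
    (hq : ∀ (x : ℂ) (a : ℝ), ‖x‖ ≤ ‖K‖ + ‖z‖ → x.im ≤ -z.im → |a| ≤ l → ‖cayx x a‖ ≤ q) (M : ℕ) :
    ‖us (Measure.dirac 0) 1 z (addL ψ K l M)‖ ≤ q := by
  refine (ContinuousMap.norm_le _ hq0).2 fun k => ?_
  rw [us_apply _ hz]
  have e : cayx ((addL ψ K l M k : ℂ) - z) 0
      = cayx ((K k : ℂ) - z) (l * ψ ((M * lap d k / (2 * Real.pi) : ℝ) : UnitAddCircle)) := by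
    change cayx (((K k + l * ψ _ : ℝ) : ℂ) - z) 0 = _
    unfold cayx
    push_cast
    congr 1 <;> ring
  rw [e]
  refine hq _ _ ?_ ?_ ?_
  · refine (norm_sub_le _ _).trans ?_
    rw [Complex.norm_real]
    exact add_le_add (K.norm_coe_le_norm _) le_rfl
  · rw [Complex.sub_im, Complex.ofReal_im, zero_sub]
  · rw [abs_mul, abs_of_pos hl]
    nlinarith [hψ.bound ((M * lap d k / (2 * Real.pi) : ℝ) : UnitAddCircle)]

/-- All laws with a lower bound on the variance. -/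
theorem all_laws {ψ : C(UnitAddCircle, ℝ)} (hψ : IsSemi ψ) (hd : 0 < d) {κ : ℝ} (hκ : 0 < κ)
    {l a : ℝ} (hl : 0 < l) (ha : 0 < a) (K : C(UnitAddTorus (Fin d), ℝ)) {z : ℂ} (hz : 0 < z.im)
    {e : ℝ} (he : 0 < e) : ∃ M₀ : ℕ, ∀ M : ℕ, M₀ ≤ M →
      ∀ (ν : Measure ℝ) [IsProbabilityMeasure ν], κ ≤ vr ν →
      ∫ v, ‖gf (addL ψ K l M) 1 v z‖ ^ 2 ∂(Pn ν (Fin d → ℤ))
        ≤ 2 * (4 * a / z.im + 4 / (a ^ 2 * l ^ 4)) + e := by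
  obtain ⟨q, hq0, hq1, hq⟩ := Al.cx.2.2.1 l (‖K‖ + ‖z‖) z.im hz
  have hq' : 0 < 1 - q := by linarith
  set L : ℝ := 2 * (1 + 2 / (1 - q)) * (2 * (((1 + q) / (1 - q)) ^ 2 / (1 - q) ^ 2) + 3 / (1 - q))
    with hL
  have hL0 : 0 < L := by positivity
  set τ : ℝ := e / (2 * L) with hτ
  have hτ0 : 0 < τ := by positivity
  obtain ⟨F, hF1, hF2⟩ := net {X | X ∈ Qf ∧ κ ≤ vr (qlaw X)} (fun X hX => hX.1) hτ0
  have h1 : ∀ Y ∈ F, ∃ M₀ : ℕ, ∀ M : ℕ, M₀ ≤ M →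
      ∫ v, ‖gf (addL ψ K l M) 1 v z‖ ^ 2 ∂(Pn (qlaw Y) (Fin d → ℤ))
        ≤ 2 * (4 * a / z.im + 4 / (a ^ 2 * l ^ 4)) + e / 2 := fun Y hY =>
    one_law hψ (qlaw Y) hd (hκ.trans_le (hF1 Y hY).2) hl ha K hz hq0 hq1 hq (half_pos he)
  choose! m hm using h1
  refine ⟨F.sup m, fun M hM ν _ hν => ?_⟩
  obtain ⟨X, hX, rfl⟩ := Al.qnt2 ν
  have e1 : ∀ v : (Fin d → ℤ) → ℝ, gf (addL ψ K l M) 1 v z
      = ge (us (Measure.dirac 0) 1 z (addL ψ K l M)) v := fun v => gf_ge _ _ _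
  obtain ⟨Y, hY, hXY⟩ := hF2 X ⟨hX, hν⟩
  have h2 := hm Y hY M ((Finset.le_sup hY).trans hM)
  simp only [e1] at h2 ⊢
  have h3 := transfer hq0 hq1 (us_q hψ hl K hz hq0 hq M) X Y hτ0 hXY
  rw [← hL] at h3
  have h4 : L * τ = e / 2 := by
    rw [hτ]
    field_simp
  linarith

/-- The grid. -/
theorem grid_pt {N δ E : ℝ} (hδ : 0 < δ) (hE : |E| ≤ N) :
    ∃ j ∈ Finset.Icc (-⌈N / δ⌉) ⌈N / δ⌉, |E - δ * (j : ℝ)| ≤ δ := by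
  refine ⟨⌊E / δ⌋, ?_, ?_⟩
  · rw [Finset.mem_Icc]
    have h1 := abs_le.1 hE
    constructor
    · rw [← Int.floor_neg]
      apply Int.floor_le_floor
      rw [← neg_div]
      exact div_le_div_of_nonneg_right h1.1 hδ.le
    · calc ⌊E / δ⌋ ≤ ⌊N / δ⌋ := Int.floor_le_floor (div_le_div_of_nonneg_right h1.2 hδ.le)
        _ ≤ ⌈N / δ⌉ := Int.floor_le_ceil _
  · have h1 := Int.floor_le (E / δ)
    have h2 := Int.lt_floor_add_one (E / δ)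
    rw [le_div_iff₀ hδ] at h1
    rw [div_lt_iff₀ hδ] at h2
    rw [abs_le]
    constructor <;> nlinarith

theorem gf_meas (K : C(UnitAddTorus (Fin d), ℝ)) {z : ℂ} (hz : 0 < z.im) :
    Measurable fun v : (Fin d → ℤ) → ℝ => gf K 1 v z := by
  have h1 := (Pool.Agent.W320.LL.us_eq Pool.Agent.W156.WAFin.hC K 1 z one_pos hz).2
  simp only [gf_ge]
  exact ge_meas h1

/-- Markov's inequality for one energy. -/
theorem markov (ν : Measure ℝ) [IsProbabilityMeasure ν] (K : C(UnitAddTorus (Fin d), ℝ)) {z : ℂ}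
    (hz : 0 < z.im) {B c : ℝ} (hB : 0 ≤ B) (hc : 0 < c)
    (h : ∫ v, ‖gf K 1 v z‖ ^ 2 ∂(Pn ν (Fin d → ℤ)) ≤ B) :
    Pn ν (Fin d → ℤ) {v | c ≤ ‖gf K 1 v z‖} ≤ ENNReal.ofReal (B / c ^ 2) := by
  have h1 := (Pool.Agent.W320.LL.us_eq Pool.Agent.W156.WAFin.hC K 1 z one_pos hz).2
  have hi : Integrable (fun v : (Fin d → ℤ) → ℝ => ‖gf K 1 v z‖ ^ 2) (Pn ν (Fin d → ℤ)) := by
    simp only [gf_ge]
    obtain ⟨C, hC⟩ := (ge_bm (d := d) h1).nsq.bd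
    exact Integrable.of_bound (ge_bm (d := d) h1).nsq.sm.aestronglyMeasurable C
      (Filter.Eventually.of_forall hC)
  have h2 := mul_meas_ge_le_integral_of_nonneg (μ := Pn ν (Fin d → ℤ))
    (Filter.Eventually.of_forall fun v => by positivity) hi (c ^ 2)
  have h3 : {v : (Fin d → ℤ) → ℝ | c ≤ ‖gf K 1 v z‖} ⊆ {v | c ^ 2 ≤ ‖gf K 1 v z‖ ^ 2} := by
    intro v hv
    exact pow_le_pow_left₀ hc.le hv 2
  have h4 : (Pn ν (Fin d → ℤ)).real {v | c ^ 2 ≤ ‖gf K 1 v z‖ ^ 2} ≤ B / c ^ 2 := by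
    rw [le_div_iff₀ (by positivity)]
    linarith
  calc Pn ν (Fin d → ℤ) {v | c ≤ ‖gf K 1 v z‖}
      ≤ Pn ν (Fin d → ℤ) {v | c ^ 2 ≤ ‖gf K 1 v z‖ ^ 2} := measure_mono h3
    _ = ENNReal.ofReal ((Pn ν (Fin d → ℤ)).real {v | c ^ 2 ≤ ‖gf K 1 v z‖ ^ 2}) :=
        (ENNReal.ofReal_toReal (measure_ne_top _ _)).symm
    _ ≤ _ := ENNReal.ofReal_le_ofReal h4

/-- The event that the Green function is large somewhere in the window. -/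
def Bad (K : C(UnitAddTorus (Fin d), ℝ)) (η c N : ℝ) : Set ((Fin d → ℤ) → ℝ) :=
  {v | ∃ E : ℝ, |E| ≤ N ∧ c ≤ η * ‖gf K 1 v ⟨E, η⟩‖}

theorem bad_sub (K : C(UnitAddTorus (Fin d), ℝ)) {η c N : ℝ} (hη : 0 < η) (hc : 0 < c) :
    Bad K η c N ⊆ ⋃ j ∈ Finset.Icc (-⌈N / (c * η / 2)⌉) ⌈N / (c * η / 2)⌉,
      {v | c / (2 * η) ≤ ‖gf K 1 v ⟨c * η / 2 * (j : ℝ), η⟩‖} := by
  rintro v ⟨E, hE, hc2⟩
  obtain ⟨j, hj, hj2⟩ := grid_pt (δ := c * η / 2) (by positivity) hE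
  rw [Set.mem_iUnion₂]
  refine ⟨j, hj, ?_⟩
  change c / (2 * η) ≤ ‖gf K 1 v ⟨c * η / 2 * (j : ℝ), η⟩‖
  have h1 := Pool.Agent.W298.WA.Aeqk.repK K v ⟨E, η⟩ ⟨c * η / 2 * (j : ℝ), η⟩ hη hη
  have h2 : ‖(⟨E, η⟩ : ℂ) - ⟨c * η / 2 * (j : ℝ), η⟩‖ = |E - c * η / 2 * (j : ℝ)| := by
    have : (⟨E, η⟩ : ℂ) - ⟨c * η / 2 * (j : ℝ), η⟩ = ((E - c * η / 2 * (j : ℝ) : ℝ) : ℂ) := by
      apply Complex.ext <;> simp
    rw [this, Complex.norm_real, Real.norm_eq_abs]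
  rw [h2] at h1
  have h3 : |E - c * η / 2 * (j : ℝ)| / (η * η) ≤ c / (2 * η) := by
    rw [div_le_div_iff₀ (by positivity) (by positivity)]
    calc |E - c * η / 2 * (j : ℝ)| * (2 * η) ≤ c * η / 2 * (2 * η) :=
          mul_le_mul_of_nonneg_right hj2 (by positivity)
      _ = c * (η * η) := by ring
  have h4 : c / η ≤ ‖gf K 1 v ⟨E, η⟩‖ := by
    rw [div_le_iff₀ hη]
    linarith
  have h5 : ‖gf K 1 v ⟨E, η⟩‖ ≤ ‖gf K 1 v ⟨E, η⟩ - gf K 1 v ⟨c * η / 2 * (j : ℝ), η⟩‖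
      + ‖gf K 1 v ⟨c * η / 2 * (j : ℝ), η⟩‖ := by
    have := norm_add_le (gf K 1 v ⟨E, η⟩ - gf K 1 v ⟨c * η / 2 * (j : ℝ), η⟩)
      (gf K 1 v ⟨c * η / 2 * (j : ℝ), η⟩)
    rwa [sub_add_cancel] at this
  have h6 : c / η = 2 * (c / (2 * η)) := by field_simp
  have h7 := h1.trans h3
  linarith

end

end Pool.Agent.V8H97.GK
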